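import Mathlib

/-!
Low degree approximation of the product of many variables in `[0, 1]`.
-/

set_option autoImplicit false

namespace Pool.Agent.TH50.BK

open Finset

/-- functions on subsets of `D` of degree at most `k` -/
def IsDeg (D : Finset ℕ) (k : ℕ) (F : Finset ℕ → ℝ) : Prop :=
  ∃ c : Finset ℕ → ℝ, ∀ S ⊆ D, F S = ∑ B ∈ D.powerset with #B ≤ k, c B * if B ⊆ S then 1 else 0

theorem IsDeg.mono {D : Finset ℕ} {k l : ℕ} (h : k ≤ l) {F : Finset ℕ → ℝ} (hF : IsDeg D k F) :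
    IsDeg D l F := by
  classical
  obtain ⟨c, hc⟩ := hF
  refine ⟨fun B => if #B ≤ k then c B else 0, fun S hS => ?_⟩
  rw [hc S hS]
  simp only [Finset.sum_filter]
  refine Finset.sum_congr rfl fun B _ => ?_
  by_cases h1 : #B ≤ k
  · simp only [h1, h1.trans h, if_true]
  · simp [h1]

theorem IsDeg.add {D : Finset ℕ} {k : ℕ} {F G : Finset ℕ → ℝ} (hF : IsDeg D k F)
    (hG : IsDeg D k G) : IsDeg D k (fun S => F S + G S) := by
  obtain ⟨c, hc⟩ := hF
  obtain ⟨d, hd⟩ := hG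
  refine ⟨fun B => c B + d B, fun S hS => ?_⟩
  simp only [hc S hS, hd S hS, ← Finset.sum_add_distrib, add_mul]

theorem IsDeg.smul {D : Finset ℕ} {k : ℕ} {F : Finset ℕ → ℝ} (a : ℝ) (hF : IsDeg D k F) :
    IsDeg D k (fun S => a * F S) := by
  obtain ⟨c, hc⟩ := hF
  refine ⟨fun B => a * c B, fun S hS => ?_⟩
  simp only [hc S hS, Finset.mul_sum, mul_assoc]

theorem isDeg_const (D : Finset ℕ) (a : ℝ) : IsDeg D 0 (fun _ => a) := by
  classical
  refine ⟨fun B => if B = ∅ then a else 0, fun S hS => ?_⟩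
  rw [Finset.sum_eq_single ∅]
  · simp
  · intro B _ hB
    simp [hB]
  · intro h
    simp at h

theorem isDeg_ind (D : Finset ℕ) (B : Finset ℕ) (hB : B ⊆ D) :
    IsDeg D #B (fun S => if B ⊆ S then 1 else 0) := by
  classical
  refine ⟨fun B' => if B' = B then 1 else 0, fun S hS => ?_⟩
  rw [Finset.sum_eq_single B]
  · simp
  · intro B' _ hB'
    simp [hB']
  · intro h
    exfalso
    apply h
    rw [Finset.mem_filter, Finset.mem_powerset]
    exact ⟨hB, le_rfl⟩

theorem IsDeg.sum {D : Finset ℕ} {k : ℕ} {ι : Type} (s : Finset ι) (F : ι → Finset ℕ → ℝ)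
    (hF : ∀ i ∈ s, IsDeg D k (F i)) : IsDeg D k (fun S => ∑ i ∈ s, F i S) := by
  classical
  induction s using Finset.induction_on with
  | empty =>
    simp only [Finset.sum_empty]
    exact (isDeg_const D 0).mono (Nat.zero_le k)
  | insert i s hi ih =>
    simp only [Finset.sum_insert hi]
    exact (hF i (Finset.mem_insert_self _ _)).add
      (ih fun j hj => hF j (Finset.mem_insert_of_mem hj))

theorem IsDeg.congr {D : Finset ℕ} {k : ℕ} {F G : Finset ℕ → ℝ} (hF : IsDeg D k F)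
    (h : ∀ S ⊆ D, G S = F S) : IsDeg D k G := by
  obtain ⟨c, hc⟩ := hF
  exact ⟨c, fun S hS => (h S hS).trans (hc S hS)⟩

theorem IsDeg.mul {D : Finset ℕ} {k l : ℕ} {F G : Finset ℕ → ℝ} (hF : IsDeg D k F)
    (hG : IsDeg D l G) : IsDeg D (k + l) (fun S => F S * G S) := by
  classical
  obtain ⟨c, hc⟩ := hF
  obtain ⟨d, hd⟩ := hG
  have h1 : IsDeg D (k + l) (fun S => ∑ B ∈ D.powerset with #B ≤ k,
      ∑ B' ∈ D.powerset with #B' ≤ l, (c B * d B') * if B ∪ B' ⊆ S then 1 else 0) := by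
    refine IsDeg.sum _ _ fun B hB => IsDeg.sum _ _ fun B' hB' => ?_
    rw [Finset.mem_filter, Finset.mem_powerset] at hB hB'
    refine IsDeg.smul _ ?_
    refine (isDeg_ind D (B ∪ B') (Finset.union_subset hB.1 hB'.1)).mono ?_
    exact (Finset.card_union_le _ _).trans (add_le_add hB.2 hB'.2)
  refine h1.congr fun S hS => ?_
  simp only [hc S hS, hd S hS, Finset.sum_mul_sum]
  refine Finset.sum_congr rfl fun B _ => Finset.sum_congr rfl fun B' _ => ?_
  by_cases h2 : B ⊆ S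
  · by_cases h3 : B' ⊆ S
    · simp [h2, h3, Finset.union_subset_iff]
    · simp [h2, h3, Finset.union_subset_iff]
  · simp [h2, Finset.union_subset_iff]

/-- the multi-affine weights -/
theorem prod_eq_sum_weights (D B : Finset ℕ) (hB : B ⊆ D) (φ : ℕ → ℝ) :
    ∏ v ∈ B, φ v = ∑ S ∈ D.powerset,
      ((∏ v ∈ S, φ v) * ∏ v ∈ D \ S, (1 - φ v)) * if B ⊆ S then 1 else 0 := by
  classical
  have h1 := Finset.prod_add (fun v => φ v) (fun v => if v ∈ B then 0 else 1 - φ v) D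
  have h2 : ∏ v ∈ D, (φ v + if v ∈ B then 0 else 1 - φ v) = ∏ v ∈ B, φ v := by
    rw [← Finset.prod_subset hB]
    · refine Finset.prod_congr rfl fun v hv => ?_
      simp [hv]
    · intro v _ hv
      simp [hv]
  rw [← h2, h1]
  refine Finset.sum_congr rfl fun S hS => ?_
  rw [mul_assoc]
  congr 1
  by_cases h3 : B ⊆ S
  · rw [if_pos h3, mul_one]
    refine Finset.prod_congr rfl fun v hv => ?_
    have : v ∉ B := fun h => (Finset.mem_sdiff.mp hv).2 (h3 h)
    simp [this]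
  · rw [if_neg h3, mul_zero]
    obtain ⟨v, hvB, hvS⟩ := Finset.not_subset.mp h3
    exact Finset.prod_eq_zero (Finset.mem_sdiff.mpr ⟨hB hvB, hvS⟩) (by simp [hvB])

theorem weights_nonneg (D S : Finset ℕ) (hS : S ⊆ D) (φ : ℕ → ℝ)
    (hφ : ∀ v ∈ D, 0 ≤ φ v ∧ φ v ≤ 1) :
    0 ≤ (∏ v ∈ S, φ v) * ∏ v ∈ D \ S, (1 - φ v) := by
  refine mul_nonneg (Finset.prod_nonneg fun v hv => (hφ v (hS hv)).1)
    (Finset.prod_nonneg fun v hv => ?_)
  have := (hφ v (Finset.mem_sdiff.mp hv).1).2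
  linarith

theorem weights_sum (D : Finset ℕ) (φ : ℕ → ℝ) :
    ∑ S ∈ D.powerset, ((∏ v ∈ S, φ v) * ∏ v ∈ D \ S, (1 - φ v)) = 1 := by
  have h := prod_eq_sum_weights D ∅ (Finset.empty_subset D) φ
  simp only [Finset.prod_empty, Finset.empty_subset, if_true, mul_one] at h
  exact h.symm

/-- A multi-affine function is bounded by its values at the vertices. -/
theorem vertex_bound (D : Finset ℕ) (s : Finset (Finset ℕ)) (hs : ∀ B ∈ s, B ⊆ D)
    (c : Finset ℕ → ℝ) {b : ℝ} (h : ∀ S ⊆ D, |∑ B ∈ s, c B * if B ⊆ S then 1 else 0| ≤ b)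
    (φ : ℕ → ℝ) (hφ : ∀ v ∈ D, 0 ≤ φ v ∧ φ v ≤ 1) : |∑ B ∈ s, c B * ∏ v ∈ B, φ v| ≤ b := by
  classical
  have h1 : ∑ B ∈ s, c B * ∏ v ∈ B, φ v = ∑ S ∈ D.powerset,
      ((∏ v ∈ S, φ v) * ∏ v ∈ D \ S, (1 - φ v)) * ∑ B ∈ s, c B * if B ⊆ S then 1 else 0 := by
    have h2 : ∀ B ∈ s, c B * ∏ v ∈ B, φ v = ∑ S ∈ D.powerset,
        ((∏ v ∈ S, φ v) * ∏ v ∈ D \ S, (1 - φ v)) * (c B * if B ⊆ S then 1 else 0) := by
      intro B hB
      rw [prod_eq_sum_weights D B (hs B hB) φ, Finset.mul_sum]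
      refine Finset.sum_congr rfl fun S _ => ?_
      ring
    rw [Finset.sum_congr rfl h2, Finset.sum_comm]
    refine Finset.sum_congr rfl fun S _ => ?_
    rw [Finset.mul_sum]
  rw [h1]
  refine (Finset.abs_sum_le_sum_abs _ _).trans ?_
  calc ∑ S ∈ D.powerset, |((∏ v ∈ S, φ v) * ∏ v ∈ D \ S, (1 - φ v)) *
        ∑ B ∈ s, c B * if B ⊆ S then 1 else 0|
      ≤ ∑ S ∈ D.powerset, ((∏ v ∈ S, φ v) * ∏ v ∈ D \ S, (1 - φ v)) * b := by
        refine Finset.sum_le_sum fun S hS => ?_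
        rw [Finset.mem_powerset] at hS
        rw [abs_mul, abs_of_nonneg (weights_nonneg D S hS φ hφ)]
        exact mul_le_mul_of_nonneg_left (h S hS) (weights_nonneg D S hS φ hφ)
    _ = b := by rw [← Finset.sum_mul, weights_sum, one_mul]

/-- the iterates of `x ↦ 2 x ^ 2 - 1` -/
noncomputable def chb (x : ℝ) : ℕ → ℝ
  | 0 => x
  | k + 1 => 2 * chb x k ^ 2 - 1

theorem chb_abs_le {x : ℝ} (hx : |x| ≤ 1) (k : ℕ) : |chb x k| ≤ 1 := by
  induction k with
  | zero => exact hx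
  | succ k ih =>
    have h1 : chb x k ^ 2 ≤ 1 := by
      rw [← sq_abs]
      exact pow_le_one₀ (abs_nonneg _) ih
    have h2 : 0 ≤ chb x k ^ 2 := sq_nonneg _
    simp only [chb]
    rw [abs_le]
    constructor <;> linarith

theorem le_chb {x s : ℝ} (hs : 0 ≤ s) (hx : 1 + s ≤ x) (k : ℕ) : 1 + 4 ^ k * s ≤ chb x k := by
  induction k with
  | zero => simpa [chb] using hx
  | succ k ih =>
    simp only [chb]
    have h0 : 0 ≤ 4 ^ k * s := by positivity
    have h1 : (1 + 4 ^ k * s) ^ 2 ≤ chb x k ^ 2 := pow_le_pow_left₀ (by linarith) ih 2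
    have h2 : 0 ≤ (4 ^ k * s) ^ 2 := sq_nonneg _
    rw [pow_succ]
    nlinarith

theorem isDeg_chb (D : Finset ℕ) (F : Finset ℕ → ℝ) (hF : IsDeg D 1 F) (k : ℕ) :
    IsDeg D (2 ^ k) (fun S => chb (F S) k) := by
  induction k with
  | zero => simpa [chb] using hF
  | succ k ih =>
    have h1 := ((ih.mul ih).smul 2).add
      ((isDeg_const D (-1)).mono (Nat.zero_le (2 ^ k + 2 ^ k)))
    have h2 : 2 ^ (k + 1) = 2 ^ k + 2 ^ k := by ring
    rw [h2]
    refine h1.congr fun S _ => ?_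
    simp only [chb]
    ring

/-- Approximation of the product by a polynomial of low degree. -/
theorem exists_and (D : Finset ℕ) (k : ℕ) {δ : ℝ} (hδ : (2 * #D + 1 : ℝ) ≤ δ * 4 ^ k) :
    ∃ c : Finset ℕ → ℝ, ∀ φ : ℕ → ℝ, (∀ v ∈ D, 0 ≤ φ v ∧ φ v ≤ 1) →
      |∏ v ∈ D, φ v - ∑ B ∈ D.powerset with #B ≤ 2 ^ k, c B * ∏ v ∈ B, φ v| ≤ δ := by
  classical
  let F : Finset ℕ → ℝ := fun S => (#S + 1 : ℝ) / (#D + 1 / 2)
  have hD : (0 : ℝ) < #D + 1 / 2 := by positivity
  have hF : IsDeg D 1 F := by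
    have h1 : IsDeg D 1 (fun S => ∑ v ∈ D, (1 / (#D + 1 / 2 : ℝ)) *
        if ({v} : Finset ℕ) ⊆ S then 1 else 0) := by
      refine IsDeg.sum _ _ fun v hv => IsDeg.smul _ ?_
      exact isDeg_ind D {v} (Finset.singleton_subset_iff.mpr hv)
    have h2 := h1.add ((isDeg_const D (1 / (#D + 1 / 2 : ℝ))).mono (Nat.zero_le 1))
    refine h2.congr fun S hS => ?_
    rw [← Finset.mul_sum]
    simp only [Finset.singleton_subset_iff, Finset.sum_ite_mem, F]
    rw [Finset.inter_eq_right.mpr hS, Finset.sum_const, nsmul_eq_mul, mul_one]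
    ring
  obtain ⟨c, hc⟩ := isDeg_chb D F hF k
  have hFD : 1 + 1 / (2 * #D + 1 : ℝ) ≤ F D := by
    have : F D = 1 + 1 / (2 * #D + 1 : ℝ) := by
      simp only [F]
      field_simp
      ring
    rw [this]
  have h4 : 1 + 4 ^ k * (1 / (2 * #D + 1 : ℝ)) ≤ chb (F D) k :=
    le_chb (by positivity) hFD k
  have hpos : 0 < 4 ^ k * (1 / (2 * #D + 1 : ℝ)) := by positivity
  have hpos2 : 0 < chb (F D) k := by linarith
  have hδ0 : 0 ≤ δ := by
    by_contra h
    push Not at h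
    have : δ * 4 ^ k < 0 := mul_neg_of_neg_of_pos h (by positivity)
    have : (0 : ℝ) ≤ 2 * #D + 1 := by positivity
    linarith
  have hδ2 : (chb (F D) k)⁻¹ ≤ δ := by
    have h5 : 1 ≤ δ * (4 ^ k * (1 / (2 * #D + 1 : ℝ))) := by
      have : δ * (4 ^ k * (1 / (2 * #D + 1 : ℝ))) = (δ * 4 ^ k) / (2 * #D + 1) := by ring
      rw [this, le_div_iff₀ (by positivity), one_mul]
      exact hδ
    have h6 : 1 ≤ δ * chb (F D) k := h5.trans (mul_le_mul_of_nonneg_left (by linarith) hδ0)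
    rw [inv_le_iff_one_le_mul₀ hpos2]
    linarith
  refine ⟨fun B => (chb (F D) k)⁻¹ * c B, fun φ hφ => ?_⟩
  -- one sum
  let c' : Finset ℕ → ℝ := fun B => (if B = D then 1 else 0) -
    if #B ≤ 2 ^ k then (chb (F D) k)⁻¹ * c B else 0
  have h7 : ∀ g : Finset ℕ → ℝ, ∑ B ∈ D.powerset, c' B * g B =
      g D - ∑ B ∈ D.powerset with #B ≤ 2 ^ k, (chb (F D) k)⁻¹ * c B * g B := by
    intro g
    simp only [c', sub_mul, Finset.sum_sub_distrib]
    congr 1
    · simp
    · rw [Finset.sum_filter]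
      refine Finset.sum_congr rfl fun B _ => ?_
      split_ifs
      · rfl
      · rw [zero_mul]
  rw [← h7 (fun B => ∏ v ∈ B, φ v)]
  refine vertex_bound D D.powerset (fun B hB => Finset.mem_powerset.mp hB) c' ?_ φ hφ
  intro S hS
  rw [h7 (fun B => if B ⊆ S then 1 else 0)]
  have h8 : ∑ B ∈ D.powerset with #B ≤ 2 ^ k, (chb (F D) k)⁻¹ * c B * (if B ⊆ S then 1 else 0) =
      (chb (F D) k)⁻¹ * chb (F S) k := by
    have hc' := hc S hS
    simp only at hc'
    rw [hc', Finset.mul_sum]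
    refine Finset.sum_congr rfl fun B _ => ?_
    ring
  rw [h8]
  by_cases h9 : S = D
  · subst h9
    rw [if_pos (Finset.Subset.refl S), inv_mul_cancel₀ hpos2.ne', sub_self, abs_zero]
    exact hδ0
  · have h10 : ¬ D ⊆ S := fun h => h9 (Finset.Subset.antisymm hS h)
    rw [if_neg h10, zero_sub, abs_neg, abs_mul, abs_of_pos (inv_pos.mpr hpos2)]
    have h11 : #S + 1 ≤ #D := Finset.card_lt_card (lt_of_le_of_ne hS h9)
    have h12 : |F S| ≤ 1 := by
      have h13 : (#S + 1 : ℝ) ≤ #D := by exact_mod_cast h11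
      simp only [F]
      rw [abs_of_nonneg (by positivity), div_le_one hD]
      linarith
    calc (chb (F D) k)⁻¹ * |chb (F S) k| ≤ (chb (F D) k)⁻¹ * 1 :=
          mul_le_mul_of_nonneg_left (chb_abs_le h12 k) (inv_pos.mpr hpos2).le
      _ ≤ δ := by rw [mul_one]; exact hδ2

/-- The product over everything against an average of products over complements of pairwise
disjoint sets. -/
theorem avg_bound (D : Finset ℕ) (q : ℕ) (hq : 0 < q) (R : Fin q → Finset ℕ)
    (hRd : ∀ l l', l ≠ l' → Disjoint (R l) (R l')) (φ : ℕ → ℝ)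
    (hφ : ∀ v ∈ D, 0 ≤ φ v ∧ φ v ≤ 1) :
    |∏ v ∈ D, φ v - (1 / q : ℝ) * ∑ l, ∏ v ∈ D \ R l, φ v| ≤ 1 / q := by
  classical
  have hq' : (0 : ℝ) < q := by exact_mod_cast hq
  have h1 : ∀ g : Finset ℕ → ℝ, g D - (1 / q : ℝ) * ∑ l, g (D \ R l) =
      ∑ B ∈ D.powerset, ((if B = D then 1 else 0) -
        (1 / q : ℝ) * ∑ l, if D \ R l = B then 1 else 0) * g B := by
    intro g
    simp only [sub_mul, Finset.sum_sub_distrib]
    congr 1
    · simp
    · simp only [mul_assoc, Finset.sum_mul, ← Finset.mul_sum]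
      congr 1
      rw [Finset.sum_comm]
      refine Finset.sum_congr rfl fun l _ => ?_
      rw [Finset.sum_eq_single (D \ R l)]
      · simp
      · intro B _ hB
        rw [if_neg hB.symm, zero_mul]
      · intro h
        exact absurd (Finset.mem_powerset.mpr Finset.sdiff_subset) h
  rw [h1 (fun B => ∏ v ∈ B, φ v)]
  refine vertex_bound D D.powerset (fun B hB => Finset.mem_powerset.mp hB) _ ?_ φ hφ
  intro S hS
  rw [← h1 (fun B => if B ⊆ S then 1 else 0)]
  by_cases h9 : S = D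
  · subst h9
    have h10 : ∀ l, S \ R l ⊆ S := fun l => Finset.sdiff_subset
    simp only [Finset.Subset.refl, if_true, h10, Finset.sum_const, Finset.card_univ,
      Fintype.card_fin, nsmul_eq_mul, mul_one]
    rw [one_div, inv_mul_cancel₀ hq'.ne', sub_self, abs_zero]
    positivity
  · have h10 : ¬ D ⊆ S := fun h => h9 (Finset.Subset.antisymm hS h)
    rw [if_neg h10, zero_sub, abs_neg, abs_mul, abs_of_pos (by positivity : (0 : ℝ) < 1 / q)]
    obtain ⟨v, hvD, hvS⟩ := Finset.not_subset.mp h10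
    have h11 : |∑ l, (if D \ R l ⊆ S then (1 : ℝ) else 0)| ≤ 1 := by
      rw [abs_of_nonneg (Finset.sum_nonneg fun l _ => by split_ifs <;> norm_num)]
      by_cases h12 : ∃ l, D \ R l ⊆ S
      · obtain ⟨l, hl⟩ := h12
        rw [Finset.sum_eq_single l]
        · rw [if_pos hl]
        · intro l' _ hl'
          rw [if_neg]
          intro h13
          have h14 : v ∈ R l := by
            by_contra h15
            exact hvS (hl (Finset.mem_sdiff.mpr ⟨hvD, h15⟩))
          have h16 : v ∈ R l' := by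
            by_contra h15
            exact hvS (h13 (Finset.mem_sdiff.mpr ⟨hvD, h15⟩))
          exact (Finset.disjoint_left.mp (hRd l l' hl'.symm)) h14 h16
        · intro h
          exact absurd (Finset.mem_univ l) h
      · push Not at h12
        simp [h12]
    calc (1 / q : ℝ) * |∑ l, (if D \ R l ⊆ S then (1 : ℝ) else 0)| ≤ (1 / q : ℝ) * 1 :=
          mul_le_mul_of_nonneg_left h11 (by positivity)
      _ = 1 / q := mul_one _

end Pool.Agent.TH50.BK
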