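import Mathlib

/-!
Closing a set under a countable family of operations with finitely many arguments and small values.
-/

set_option autoImplicit false

namespace Pool.Agent.TH50.BK

open Cardinal Set

universe u

theorem mk_iUnion_le_of_countable {κ : Type u} {ι : Type} [Countable ι] (A : ι → Set κ)
    {lam : Cardinal.{u}} (hlam : ℵ₀ ≤ lam) (h : ∀ i, #(A i) ≤ lam) : #(⋃ i, A i) ≤ lam := by
  have h1 := mk_iUnion_le_lift.{u, 0} A
  have h2 : #(⋃ i, A i) ≤ Cardinal.lift.{u} #ι * ⨆ i, #(A i) := by simpa using h1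
  refine h2.trans ?_
  have h3 : Cardinal.lift.{u} #ι ≤ lam := by
    refine le_trans ?_ hlam
    rw [Cardinal.lift_le_aleph0]
    exact mk_le_aleph0 (α := ι)
  exact (mul_le_mul' h3 (ciSup_le' h)).trans (mul_eq_self hlam).le

theorem mk_fun_le {κ : Type u} {α : Type} [Finite α] {lam : Cardinal.{u}} (hlam : ℵ₀ ≤ lam)
    (h : #κ ≤ lam) : #(α → κ) ≤ lam := by
  rw [mk_arrow]
  simp only [Cardinal.lift_id']
  obtain ⟨n, hn⟩ := Cardinal.lt_aleph0.mp (Cardinal.lt_aleph0_of_finite α)
  rw [hn, Cardinal.lift_natCast]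
  refine (Cardinal.power_le_power_right h).trans ?_
  have := Cardinal.power_nat_le (c := lam) (n := n) hlam
  simpa using this

theorem mk_iUnion_le_of_le {κ : Type u} {ι : Type u} (A : ι → Set κ)
    {lam : Cardinal.{u}} (hlam : ℵ₀ ≤ lam) (hι : #ι ≤ lam) (h : ∀ i, #(A i) ≤ lam) :
    #(⋃ i, A i) ≤ lam := by
  refine (mk_iUnion_le A).trans ?_
  exact (mul_le_mul' hι (ciSup_le' h)).trans (mul_eq_self hlam).le

/-- Closing off under operations with finitely many arguments and small values. -/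
theorem exists_closed {κ : Type u} [Nonempty κ] {D J : Type} [Countable D] (I : D → Finset J)
    (F : D → (J → κ) → Set κ)
    (hF : ∀ d f f', (∀ j ∈ I d, f j = f' j) → F d f = F d f')
    {lam : Cardinal.{u}} (hlam : ℵ₀ ≤ lam) (hFc : ∀ d f, #(F d f) ≤ lam)
    (S : Set κ) (hS : #S ≤ lam) :
    ∃ M : Set κ, S ⊆ M ∧ #M ≤ lam ∧ ∀ d f, (∀ j ∈ I d, f j ∈ M) → F d f ⊆ M := by
  classical
  let w : κ := Classical.arbitrary κ
  let ex : (T : Set κ) → (d : D) → ((I d) → T) → J → κ := fun T d g j =>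
    if h : j ∈ I d then (g ⟨j, h⟩ : κ) else w
  let nxt : Set κ → Set κ := fun T => T ∪ ⋃ d : D, ⋃ g : (I d → T), F d (ex T d g)
  let stg : ℕ → Set κ := fun n => nxt^[n] S
  have h0 : stg 0 = S := rfl
  have h1 : ∀ n, stg (n + 1) = nxt (stg n) := fun n => Function.iterate_succ_apply' _ _ _
  have hmono : Monotone stg := by
    apply monotone_nat_of_le_succ
    intro n
    rw [h1]
    exact subset_union_left
  have hcard : ∀ n, #(stg n) ≤ lam := by
    intro n
    induction n with
    | zero => exact hS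
    | succ n ih =>
      rw [h1]
      refine (mk_union_le _ _).trans ?_
      refine (add_le_add ih ?_).trans (add_eq_self hlam).le
      refine mk_iUnion_le_of_countable _ hlam fun d => ?_
      exact mk_iUnion_le_of_le _ hlam (mk_fun_le hlam ih) fun g => hFc d _
  refine ⟨⋃ n, stg n, ?_, mk_iUnion_le_of_countable _ hlam hcard, fun d f hf => ?_⟩
  · exact subset_iUnion stg 0
  · have : ∃ n, ∀ j ∈ I d, f j ∈ stg n := by
      have h2 : ∀ j : I d, ∃ n, f j ∈ stg n := fun j => mem_iUnion.mp (hf j j.2)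
      choose n hn using h2
      refine ⟨Finset.univ.sup n, fun j hj => ?_⟩
      exact hmono (Finset.le_sup (Finset.mem_univ (⟨j, hj⟩ : I d))) (hn ⟨j, hj⟩)
    obtain ⟨n, hn⟩ := this
    refine (show F d f ⊆ stg (n + 1) from ?_).trans (subset_iUnion stg (n + 1))
    rw [h1]
    have h3 : F d f = F d (ex (stg n) d fun j => ⟨f j, hn j j.2⟩) := by
      refine hF d _ _ fun j hj => ?_
      simp only [ex, hj, dif_pos]
    rw [h3]
    refine subset_union_of_subset_right ?_ _
    exact subset_iUnion_of_subset d (subset_iUnion_of_subset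
      (fun j => (⟨f j, hn j j.2⟩ : stg n)) (Subset.refl _))

end Pool.Agent.TH50.BK
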