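import Pool.Agent.TH50.BK.Closure

/-!
A canonical configuration theorem for countable colourings of sequences.
-/

set_option autoImplicit false

namespace Pool.Agent.TH50.BK

open Cardinal Set

universe u

/-- the section of the configuration `p0`, `p1` given by `U` -/
def sec {κ : Type u} (p0 p1 : ℕ → κ) (U : Finset ℕ) (v : ℕ) : κ := if v ∈ U then p1 v else p0 v

/-- the sequence coded by `f`, `t`, `z` -/
def sg {κ : Type u} (t : ℕ → κ) (r : ℕ) (f : (ℕ ⊕ ℕ) ⊕ (Finset ℕ × ℕ) → κ) (U : Finset ℕ)
    (z : κ) (v : ℕ) : κ :=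
  if v = r then z else if v < r then
    (if v ∈ U then f (Sum.inl (Sum.inr v)) else f (Sum.inl (Sum.inl v))) else t v

/-- the relevant codes -/
def Idx (r : ℕ) (b : Finset ℕ) : Finset ((ℕ ⊕ ℕ) ⊕ (Finset ℕ × ℕ)) :=
  ((Finset.range r).disjSum (Finset.range r)).disjSum ((Finset.range r).powerset ×ˢ b)

/-- the finite part of the data -/
abbrev Dat (C : Type) : Type := C × Finset ℕ × Finset ((Finset ℕ × ℕ) × (Finset ℕ × ℕ))

/-- realisation of the data by `z` -/
def Real' {κ : Type u} {C : Type} (χ : (ℕ → κ) → C) (sz : C → ℕ) (e : (ℕ → κ) → ℕ → κ)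
    (t : ℕ → κ) (r : ℕ) (d : Dat C) (f : (ℕ ⊕ ℕ) ⊕ (Finset ℕ × ℕ) → κ) (z : κ) : Prop :=
  ∀ U ⊆ Finset.range r, χ (sg t r f U z) = d.1 ∧
    (∀ a ∈ d.2.1, e (sg t r f U z) a = f (Sum.inr (U, a))) ∧
    ∀ U' ⊆ Finset.range r, ∀ a < sz d.1, ∀ a' < sz d.1,
      (e (sg t r f U z) a = e (sg t r f U' z) a' ↔ ((U, a), (U', a')) ∈ d.2.2)

/-- the new values -/
def New {κ : Type u} {C : Type} (sz : C → ℕ) (e : (ℕ → κ) → ℕ → κ)
    (t : ℕ → κ) (r : ℕ) (d : Dat C) (f : (ℕ ⊕ ℕ) ⊕ (Finset ℕ × ℕ) → κ) (z : κ) : Set κ :=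
  {y | y = z ∨ ∃ U ⊆ Finset.range r, ∃ a < sz d.1, a ∉ d.2.1 ∧ y = e (sg t r f U z) a}

/-- coverable data -/
def Cov {κ : Type u} {C : Type} (Γ : Set κ) (lam : Cardinal.{u}) (χ : (ℕ → κ) → C) (sz : C → ℕ)
    (e : (ℕ → κ) → ℕ → κ) (t : ℕ → κ) (r : ℕ) (d : Dat C)
    (f : (ℕ ⊕ ℕ) ⊕ (Finset ℕ × ℕ) → κ) : Prop :=
  ∃ S : Set κ, #S ≤ lam ∧ ∀ z ∈ Γ, Real' χ sz e t r d f z → ∃ y ∈ New sz e t r d f z, y ∈ S

theorem config {κ : Type u} (Γ : ℕ → Set κ)
    (hΓ : ∀ v : ℕ, #(Γ v) = ℵ_ ((v + 1 : ℕ) : Ordinal.{u})) (r : ℕ) :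
    ∀ {C : Type} [Countable C] (χ : (ℕ → κ) → C) (sz : C → ℕ) (e : (ℕ → κ) → ℕ → κ)
      (_ : ∀ τ a b, a < sz (χ τ) → b < sz (χ τ) → e τ a = e τ b → a = b) (t : ℕ → κ),
    ∃ (p0 p1 : ℕ → κ) (c : C) (B : ℕ → Finset ℕ), (∀ v, r ≤ v → p0 v = t v) ∧
      (∀ v < r, p0 v ∈ Γ v ∧ p1 v ∈ Γ v) ∧
      (∀ v < r, ∀ w < r, p0 v ≠ p1 w ∧ (p0 v = p0 w → v = w) ∧ (p1 v = p1 w → v = w)) ∧
      (∀ a, B a ⊆ Finset.range r) ∧
      (∀ U ⊆ Finset.range r, χ (sec p0 p1 U) = c) ∧
      ∀ U ⊆ Finset.range r, ∀ U' ⊆ Finset.range r, ∀ a < sz c, ∀ a' < sz c,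
        (e (sec p0 p1 U) a = e (sec p0 p1 U') a' ↔ a = a' ∧ B a ∩ U = B a ∩ U') := by
  classical
  induction r with
  | zero =>
    intro C _ χ sz e hinj t
    refine ⟨t, t, χ t, fun _ => ∅, fun v _ => rfl, fun v hv => absurd hv (Nat.not_lt_zero v),
      fun v hv => absurd hv (Nat.not_lt_zero v), fun a => by simp, fun U hU => ?_,
      fun U hU U' hU' a ha a' ha' => ?_⟩
    · congr 1
      funext v
      simp [sec]
    · have h1 : ∀ U, sec t t U = t := fun U => by funext v; simp [sec]
      rw [h1, h1]
      constructor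
      · intro h
        exact ⟨hinj t a a' ha ha' h, by simp⟩
      · rintro ⟨rfl, _⟩
        rfl
  | succ r ih =>
    intro C _ χ sz e hinj t
    have hinf : ℵ₀ ≤ ℵ_ ((r : ℕ) : Ordinal.{u}) := aleph0_le_aleph _
    have hne : Nonempty κ := by
      by_contra h
      have h1 : IsEmpty κ := not_nonempty_iff.mp h
      have h2 := hΓ 0
      rw [mk_eq_zero] at h2
      have h3 := aleph0_le_aleph ((0 + 1 : ℕ) : Ordinal.{u})
      rw [← h2] at h3
      exact absurd h3 (not_le.mpr aleph0_pos)
    let w : κ := Classical.arbitrary κ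
    let msk : Dat C → ((ℕ ⊕ ℕ) ⊕ (Finset ℕ × ℕ) → κ) → ((ℕ ⊕ ℕ) ⊕ (Finset ℕ × ℕ) → κ) :=
      fun d f j => if j ∈ Idx r d.2.1 then f j else w
    let F : Dat C → ((ℕ ⊕ ℕ) ⊕ (Finset ℕ × ℕ) → κ) → Set κ := fun d f =>
      if h : Cov (Γ r) (ℵ_ ((r : ℕ) : Ordinal.{u})) χ sz e t r d (msk d f) then h.choose else ∅
    have hFc : ∀ d f, #(F d f) ≤ ℵ_ ((r : ℕ) : Ordinal.{u}) := by
      intro d f
      by_cases h : Cov (Γ r) (ℵ_ ((r : ℕ) : Ordinal.{u})) χ sz e t r d (msk d f)
      · simp only [F, dif_pos h]
        exact h.choose_spec.1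
      · simp only [F, dif_neg h, mk_eq_zero]
        exact zero_le
    obtain ⟨M, hSM, hMc, hMcl⟩ := exists_closed (κ := κ) (D := Dat C)
      (fun d => Idx r d.2.1) F (by
        intro d f f' hff
        have : msk d f = msk d f' := by
          funext j
          by_cases hj : j ∈ Idx r d.2.1
          · simp only [msk, if_pos hj]
            exact hff j hj
          · simp only [msk, if_neg hj]
        simp only [F, this]) hinf hFc (⋃ v : Fin r, Γ v) (by
        refine mk_iUnion_le_of_countable _ hinf fun v => ?_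
        rw [hΓ]
        refine aleph_le_aleph.mpr ?_
        have := v.2
        exact_mod_cast this)
    obtain ⟨x, hxΓ, hxM⟩ : ∃ x ∈ Γ r, x ∉ M := by
      by_contra hcon
      push Not at hcon
      have h1 : #(Γ r) ≤ #M := mk_le_mk_of_subset hcon
      rw [hΓ] at h1
      have h2 := h1.trans hMc
      rw [aleph_le_aleph] at h2
      have h3 : (r + 1 : ℕ) ≤ r := by exact_mod_cast h2
      omega
    obtain ⟨p0, p1, ⟨c, b⟩, B, hp0, hpΓ, hdist, hB, hcol, hpat⟩ := ih
      (C := C × Finset ℕ)
      (fun τ => (χ τ, (Finset.range (sz (χ τ))).filter fun a => e τ a ∈ M))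
      (fun c => sz c.1) e hinj (Function.update t r x)
    have hp0r : p0 r = x := by
      rw [hp0 r le_rfl, Function.update_self]
    have hp0t : ∀ v, r < v → p0 v = t v := by
      intro v hv
      rw [hp0 v hv.le, Function.update_of_ne hv.ne']
    have hcol1 : ∀ U ⊆ Finset.range r, χ (sec p0 p1 U) = c := fun U hU =>
      congrArg Prod.fst (hcol U hU)
    have hcol2 : ∀ U ⊆ Finset.range r, ∀ a < sz c, (e (sec p0 p1 U) a ∈ M ↔ a ∈ b) := by
      intro U hU a ha
      have h1 := congrArg Prod.snd (hcol U hU)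
      simp only at h1
      rw [← h1, hcol1 U hU, Finset.mem_filter, Finset.mem_range]
      exact ⟨fun h => ⟨ha, h⟩, fun h => h.2⟩
    have hbsz : ∀ a ∈ b, a < sz c := by
      intro a ha
      have h1 := congrArg Prod.snd (hcol ∅ (Finset.empty_subset _))
      simp only at h1
      rw [← h1, hcol1 ∅ (Finset.empty_subset _), Finset.mem_filter, Finset.mem_range] at ha
      exact ha.1
    simp only at hpat
    -- the data
    let E : Finset ((Finset ℕ × ℕ) × (Finset ℕ × ℕ)) :=
      (((Finset.range r).powerset ×ˢ Finset.range (sz c)) ×ˢ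
        ((Finset.range r).powerset ×ˢ Finset.range (sz c))).filter fun q =>
          e (sec p0 p1 q.1.1) q.1.2 = e (sec p0 p1 q.2.1) q.2.2
    let d : Dat C := (c, b, E)
    let f : (ℕ ⊕ ℕ) ⊕ (Finset ℕ × ℕ) → κ := Sum.elim (Sum.elim p0 p1)
      (fun q => e (sec p0 p1 q.1) q.2)
    have hM : ∀ v < r, p0 v ∈ M ∧ p1 v ∈ M := by
      intro v hv
      have h1 : Γ v ⊆ M := (subset_iUnion (fun v : Fin r => Γ v) ⟨v, hv⟩).trans hSM
      exact ⟨h1 (hpΓ v hv).1, h1 (hpΓ v hv).2⟩
    have hfM : ∀ j ∈ Idx r b, f j ∈ M := by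
      intro j hj
      rcases j with (j | j) | ⟨U, a⟩
      · simp [Idx] at hj
        exact (hM j hj).1
      · simp [Idx] at hj
        exact (hM j hj).2
      · simp [Idx] at hj
        exact (hcol2 U (by intro x hx; simpa using hj.1 hx) a (hbsz a hj.2)).mpr hj.2
    have hFM : F d f ⊆ M := hMcl d f hfM
    -- the coded sequence
    have hsg : ∀ U ⊆ Finset.range r, ∀ z, sg t r (msk d f) U z =
        Function.update (sec p0 p1 U) r z := by
      intro U hU z
      funext v
      by_cases hv : v = r
      · subst hv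
        simp [sg]
      · rw [Function.update_of_ne hv]
        by_cases hv' : v < r
        · simp only [sg, if_neg hv, if_pos hv', msk, sec]
          have h1 : Sum.inl (Sum.inr v) ∈ Idx r d.2.1 := by simp [Idx, hv']
          have h2 : Sum.inl (Sum.inl v) ∈ Idx r d.2.1 := by simp [Idx, hv']
          rw [if_pos h1, if_pos h2]
          rfl
        · simp only [sg, if_neg hv, if_neg hv', sec]
          rw [if_neg (fun h => hv' (Finset.mem_range.mp (hU h))), hp0t v (by omega)]
    have hsgx : ∀ U ⊆ Finset.range r, sg t r (msk d f) U x = sec p0 p1 U := by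
      intro U hU
      rw [hsg U hU, Function.update_eq_self_iff]
      simp only [sec]
      rw [if_neg (fun h => absurd (Finset.mem_range.mp (hU h)) (lt_irrefl r)), hp0r]
    have hmr : ∀ U ⊆ Finset.range r, ∀ a ∈ b, msk d f (Sum.inr (U, a)) = e (sec p0 p1 U) a := by
      intro U hU a ha
      have h1 : Sum.inr (U, a) ∈ Idx r d.2.1 := by
        simp only [Idx, Finset.inr_mem_disjSum, Finset.mem_product, Finset.mem_powerset]
        exact ⟨hU, ha⟩
      simp only [msk, if_pos h1]
      rfl
    have hRx : Real' χ sz e t r d (msk d f) x := by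
      intro U hU
      rw [hsgx U hU]
      refine ⟨hcol1 U hU, fun a ha => (hmr U hU a ha).symm, fun U' hU' a ha a' ha' => ?_⟩
      rw [hsgx U' hU']
      simp only [d, E, Finset.mem_filter, Finset.mem_product, Finset.mem_powerset,
        Finset.mem_range]
      exact ⟨fun h => ⟨⟨⟨hU, ha⟩, ⟨hU', ha'⟩⟩, h⟩, fun h => h.2⟩
    have hncov : ¬ Cov (Γ r) (ℵ_ ((r : ℕ) : Ordinal.{u})) χ sz e t r d (msk d f) := by
      intro hcov
      have h1 : F d f = hcov.choose := by simp only [F, dif_pos hcov]
      obtain ⟨y, hy, hyS⟩ := hcov.choose_spec.2 x hxΓ hRx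
      rw [← h1] at hyS
      have hyM := hFM hyS
      rcases hy with rfl | ⟨U, hU, a, ha, hab, rfl⟩
      · exact hxM hyM
      · rw [hsgx U hU] at hyM
        exact hab ((hcol2 U hU a ha).mp hyM)
    -- the new element
    let S : Set κ := M ∪ ({x} ∪ ⋃ q : Finset ℕ × ℕ, {e (sec p0 p1 q.1) q.2})
    have hSc : #S ≤ ℵ_ ((r : ℕ) : Ordinal.{u}) := by
      refine (mk_union_le _ _).trans ((add_le_add hMc ?_).trans (add_eq_self hinf).le)
      refine (mk_union_le _ _).trans ((add_le_add ?_ ?_).trans (add_eq_self hinf).le)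
      · rw [mk_singleton]
        exact one_le_aleph0.trans hinf
      · refine mk_iUnion_le_of_countable _ hinf fun q => ?_
        rw [mk_singleton]
        exact one_le_aleph0.trans hinf
    obtain ⟨x', hx'Γ, hRx', hx'S⟩ : ∃ z ∈ Γ r, Real' χ sz e t r d (msk d f) z ∧
        ∀ y ∈ New sz e t r d (msk d f) z, y ∉ S := by
      by_contra hcon
      push Not at hcon
      exact hncov ⟨S, hSc, hcon⟩
    have hx'1 : x' ∉ S := hx'S x' (Or.inl rfl)
    have hx'M : x' ∉ M := fun h => hx'1 (Or.inl h)
    have hx'x : x' ≠ x := fun h => hx'1 (Or.inr (Or.inl h))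
    -- sections of the new configuration
    have hsec0 : ∀ U ⊆ Finset.range r, sec p0 (Function.update p1 r x') U = sec p0 p1 U := by
      intro U hU
      funext v
      by_cases hv : v ∈ U
      · have hvr : v ≠ r := fun h => absurd (Finset.mem_range.mp (hU hv)) (by omega)
        simp only [sec, if_pos hv, Function.update_of_ne hvr]
      · simp only [sec, if_neg hv]
    have hsec1 : ∀ U ⊆ Finset.range r, sec p0 (Function.update p1 r x') (insert r U) =
        Function.update (sec p0 p1 U) r x' := by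
      intro U hU
      funext v
      by_cases hv : v = r
      · subst hv
        simp [sec]
      · rw [Function.update_of_ne hv]
        simp only [sec, Finset.mem_insert, hv, false_or, Function.update_of_ne hv]
    have hsplit : ∀ U ⊆ Finset.range (r + 1), (U ⊆ Finset.range r) ∨
        ∃ U0 ⊆ Finset.range r, U = insert r U0 := by
      intro U hU
      by_cases hr : r ∈ U
      · right
        refine ⟨U.erase r, ?_, (Finset.insert_erase hr).symm⟩
        intro v hv
        have h1 := Finset.mem_range.mp (hU (Finset.mem_of_mem_erase hv))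
        have h2 := Finset.ne_of_mem_erase hv
        exact Finset.mem_range.mpr (by omega)
      · left
        intro v hv
        have h1 := Finset.mem_range.mp (hU hv)
        have h2 : v ≠ r := fun h => hr (h ▸ hv)
        exact Finset.mem_range.mpr (by omega)
    have hupc : ∀ U ⊆ Finset.range r, χ (Function.update (sec p0 p1 U) r x') = c := by
      intro U hU
      rw [← hsg U hU]
      exact (hRx' U hU).1
    have hupb : ∀ U ⊆ Finset.range r, ∀ a ∈ b,
        e (Function.update (sec p0 p1 U) r x') a = e (sec p0 p1 U) a := by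
      intro U hU a ha
      rw [← hsg U hU, ← hmr U hU a ha]
      exact (hRx' U hU).2.1 a ha
    have hupn : ∀ U ⊆ Finset.range r, ∀ a < sz c, a ∉ b →
        e (Function.update (sec p0 p1 U) r x') a ∉ S := by
      intro U hU a ha hab
      rw [← hsg U hU]
      exact hx'S _ (Or.inr ⟨U, hU, a, ha, hab, rfl⟩)
    have hupe : ∀ U ⊆ Finset.range r, ∀ U' ⊆ Finset.range r, ∀ a < sz c, ∀ a' < sz c,
        (e (Function.update (sec p0 p1 U) r x') a = e (Function.update (sec p0 p1 U') r x') a' ↔
          a = a' ∧ B a ∩ U = B a ∩ U') := by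
      intro U hU U' hU' a ha a' ha'
      rw [← hsg U hU, ← hsg U' hU', (hRx' U hU).2.2 U' hU' a ha a' ha',
        ← hpat U hU U' hU' a ha a' ha']
      simp only [d, E, Finset.mem_filter, Finset.mem_product, Finset.mem_powerset,
        Finset.mem_range]
      exact ⟨fun h => h.2, fun h => ⟨⟨⟨hU, ha⟩, ⟨hU', ha'⟩⟩, h⟩⟩
    -- mixed comparison
    have hmix : ∀ U ⊆ Finset.range r, ∀ U' ⊆ Finset.range r, ∀ a < sz c, ∀ a' < sz c,
        (e (sec p0 p1 U) a = e (Function.update (sec p0 p1 U') r x') a' ↔
          a = a' ∧ a ∈ b ∧ B a ∩ U = B a ∩ U') := by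
      intro U hU U' hU' a ha a' ha'
      by_cases hb : a' ∈ b
      · rw [hupb U' hU' a' hb, hpat U hU U' hU' a ha a' ha']
        constructor
        · rintro ⟨rfl, h⟩
          exact ⟨rfl, hb, h⟩
        · rintro ⟨rfl, -, h⟩
          exact ⟨rfl, h⟩
      · constructor
        · intro h
          exfalso
          apply hupn U' hU' a' ha' hb
          rw [← h]
          exact Or.inr (Or.inr (mem_iUnion.mpr ⟨(U, a), rfl⟩))
        · rintro ⟨rfl, h, -⟩
          exact absurd h hb
    have hrU : ∀ U ⊆ Finset.range r, r ∉ U := fun U hU h =>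
      absurd (Finset.mem_range.mp (hU h)) (lt_irrefl r)
    refine ⟨p0, Function.update p1 r x', c, fun a => if a ∈ b then B a else insert r (B a),
      ?_, ?_, ?_, ?_, ?_, ?_⟩
    · intro v hv
      exact hp0t v (by omega)
    · intro v hv
      by_cases hvr : v = r
      · subst hvr
        rw [Function.update_self, hp0r]
        exact ⟨hxΓ, hx'Γ⟩
      · rw [Function.update_of_ne hvr]
        exact hpΓ v (by omega)
    · intro v hv w hw
      by_cases hvr : v = r
      · subst hvr
        by_cases hwr : w = v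
        · subst hwr
          rw [Function.update_self, hp0r]
          exact ⟨hx'x.symm, fun _ => rfl, fun _ => rfl⟩
        · have hw' : w < v := by omega
          rw [Function.update_self, Function.update_of_ne hwr, hp0r]
          refine ⟨fun h => hxM (h ▸ (hM w hw').2), fun h => absurd (h ▸ (hM w hw').1) hxM,
            fun h => absurd (h ▸ (hM w hw').2) hx'M⟩
      · have hv' : v < r := by omega
        by_cases hwr : w = r
        · subst hwr
          rw [Function.update_self, Function.update_of_ne hvr, hp0r]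
          refine ⟨fun h => hx'M (h ▸ (hM v hv').1), fun h => absurd (h ▸ (hM v hv').1) hxM,
            fun h => absurd (h ▸ (hM v hv').2) hx'M⟩
        · rw [Function.update_of_ne hvr, Function.update_of_ne hwr]
          exact hdist v hv' w (by omega)
    · intro a
      have h1 : Finset.range r ⊆ Finset.range (r + 1) := Finset.range_subset_range.mpr (by omega)
      simp only
      split_ifs
      · exact (hB a).trans h1
      · refine Finset.insert_subset (Finset.mem_range.mpr (by omega)) ((hB a).trans h1)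
    · intro U hU
      rcases hsplit U hU with hU | ⟨U0, hU0, rfl⟩
      · rw [hsec0 U hU]
        exact hcol1 U hU
      · rw [hsec1 U0 hU0]
        exact hupc U0 hU0
    · intro U hU U' hU' a ha a' ha'
      have hra : r ∉ B a := hrU _ (hB a)
      beta_reduce
      rcases hsplit U hU with hU | ⟨U0, hU0, rfl⟩
      · have hrU1 := hrU U hU
        rcases hsplit U' hU' with hU' | ⟨U0', hU0', rfl⟩
        · have hrU2 := hrU U' hU'
          rw [hsec0 U hU, hsec0 U' hU', hpat U hU U' hU' a ha a' ha']
          refine and_congr_right fun _ => ?_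
          split_ifs with hb
          · rfl
          · rw [Finset.insert_inter_of_notMem hrU1, Finset.insert_inter_of_notMem hrU2]
        · have hrU2 := hrU U0' hU0'
          rw [hsec0 U hU, hsec1 U0' hU0', hmix U hU U0' hU0' a ha a' ha']
          refine and_congr_right fun _ => ?_
          split_ifs with hb
          · rw [Finset.inter_insert_of_notMem hra]
            exact ⟨fun h => h.2, fun h => ⟨hb, h⟩⟩
          · rw [Finset.insert_inter_of_notMem hrU1]
            constructor
            · rintro ⟨h, -⟩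
              exact absurd h hb
            · intro h
              have : r ∈ insert r (B a) ∩ insert r U0' :=
                Finset.mem_inter.mpr ⟨Finset.mem_insert_self _ _, Finset.mem_insert_self _ _⟩
              rw [← h] at this
              exact absurd (Finset.mem_inter.mp this).1 hra
      · have hrU1 := hrU U0 hU0
        rcases hsplit U' hU' with hU' | ⟨U0', hU0', rfl⟩
        · have hrU2 := hrU U' hU'
          rw [hsec1 U0 hU0, hsec0 U' hU', eq_comm, hmix U' hU' U0 hU0 a' ha' a ha]
          constructor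
          · rintro ⟨rfl, hb, h⟩
            refine ⟨rfl, ?_⟩
            rw [if_pos hb, Finset.inter_insert_of_notMem hra]
            exact h.symm
          · rintro ⟨rfl, h⟩
            refine ⟨rfl, ?_⟩
            split_ifs at h with hb
            · rw [Finset.inter_insert_of_notMem hra] at h
              exact ⟨hb, h.symm⟩
            · exfalso
              have : r ∈ insert r (B a) ∩ insert r U0 :=
                Finset.mem_inter.mpr ⟨Finset.mem_insert_self _ _, Finset.mem_insert_self _ _⟩
              rw [h] at this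
              exact absurd (Finset.mem_inter.mp this).2 hrU2
        · have hrU2 := hrU U0' hU0'
          rw [hsec1 U0 hU0, hsec1 U0' hU0', hupe U0 hU0 U0' hU0' a ha a' ha']
          refine and_congr_right fun _ => ?_
          split_ifs with hb
          · rw [Finset.inter_insert_of_notMem hra, Finset.inter_insert_of_notMem hra]
          · rw [← Finset.insert_inter_distrib, ← Finset.insert_inter_distrib]
            constructor
            · intro h
              rw [h]
            · intro h
              have h1 : r ∉ B a ∩ U0 := fun h => hrU1 (Finset.mem_inter.mp h).2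
              have h2 : r ∉ B a ∩ U0' := fun h => hrU2 (Finset.mem_inter.mp h).2
              have h3 := congrArg (fun s => s.erase r) h
              simpa only [Finset.erase_insert h1, Finset.erase_insert h2] using h3

end Pool.Agent.TH50.BK
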