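import Pool.Agent.Helper358.LOne
import Pool.Agent.TH50.BK.Config

/-!
Canonical configurations for families of continuous functions on `B(κ)^m`.
-/

set_option autoImplicit false

namespace Pool.Agent.TH50.BK

open Pool.Agent.Helper358.LOne Cardinal

universe u

/-- the countable colouring attached to a family of functions -/
theorem exists_colour {κ : Type u} [Nonempty κ] {m : ℕ} (r : ℕ)
    (G : Finset ℕ → (ℕ → κ) → C(Fin m → Ball κ, ℝ))
    (hG : ∀ D τ τ', (∀ v ∈ D, τ v = τ' v) → G D τ = G D τ') {ε : ℝ} (hε : 0 < ε) :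
    ∃ (C : Type) (_ : Countable C) (χ : (ℕ → κ) → C) (sz : C → ℕ) (e : (ℕ → κ) → ℕ → κ)
      (I : C → Finset ℕ → ℕ → Prop),
      (∀ τ a b, a < sz (χ τ) → b < sz (χ τ) → e τ a = e τ b → a = b) ∧
      (∀ D ⊆ Finset.range r, ∀ τ τ', χ τ = χ τ' → (∀ v ∈ D, τ v = τ' v) →
        ∀ a < sz (χ τ), I (χ τ) D a → ∃ a' < sz (χ τ), I (χ τ) D a' ∧ e τ a = e τ' a') ∧
      (∀ D ⊆ Finset.range r, ∀ τ, ∀ z z' : Fin m → Ball κ,
        (∀ k, ∀ a < sz (χ τ), I (χ τ) D a → (z k).1 (e τ a) = (z' k).1 (e τ a)) →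
          |G D τ z - G D τ z'| ≤ ε) ∧
      (∀ D ⊆ Finset.range r, ∀ τ τ', χ τ = χ τ' → ∀ w : Fin m → Ball (Fin (sz (χ τ))),
        |G D τ (fun k => ext (fun a : Fin (sz (χ τ)) => e τ a) (w k)) -
          G D τ' (fun k => ext (fun a : Fin (sz (χ τ)) => e τ' a) (w k))| ≤ 2 * ε) := by
  classical
  let w0 : κ := Classical.arbitrary κ
  choose supp hsupp using fun f : C(Fin m → Ball κ, ℝ) => exists_support f hε
  let P : (ℕ → κ) → Finset κ := fun τ => (Finset.range r).powerset.biUnion fun D => supp (G D τ)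
  let e : (ℕ → κ) → ℕ → κ := fun τ a =>
    if h : a < (P τ).card then (((P τ).equivFin.symm ⟨a, h⟩ : P τ) : κ) else w0
  have hinj : ∀ τ a b, a < (P τ).card → b < (P τ).card → e τ a = e τ b → a = b := by
    intro τ a b ha hb hab
    simp only [e, dif_pos ha, dif_pos hb] at hab
    have := (P τ).equivFin.symm.injective (Subtype.ext hab)
    exact congrArg Fin.val this
  have hsurj : ∀ τ, ∀ γ ∈ P τ, ∃ a < (P τ).card, e τ a = γ := by
    intro τ γ hγ
    refine ⟨(P τ).equivFin ⟨γ, hγ⟩, Fin.is_lt _, ?_⟩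
    simp only [e, Fin.is_lt, dif_pos, Fin.eta, Equiv.symm_apply_apply]
  let cmp : (p : ℕ) → Finset ℕ → (ℕ → κ) → C(Fin m → Ball (Fin p), ℝ) := fun p D τ =>
    ⟨fun w => G D τ (fun k => ext (fun a : Fin p => e τ a) (w k)), (G D τ).continuous.comp
      (continuous_pi fun k => (continuous_ext _).comp (continuous_apply k))⟩
  have hdense : ∀ (p : ℕ) (g : C(Fin m → Ball (Fin p), ℝ)),
      ∃ i : ℕ, dist g (TopologicalSpace.denseSeq C(Fin m → Ball (Fin p), ℝ) i) < ε := by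
    intro p g
    obtain ⟨y, ⟨i, rfl⟩, hi⟩ := Metric.mem_closure_iff.mp
      (TopologicalSpace.denseRange_denseSeq C(Fin m → Ball (Fin p), ℝ) g) ε hε
    exact ⟨i, hi⟩
  choose idx hidx using hdense
  let C : Type := ℕ × Finset (Finset ℕ × ℕ) × ((Finset.range r).powerset → ℕ)
  let χ : (ℕ → κ) → C := fun τ => ((P τ).card,
    (((Finset.range r).powerset ×ˢ Finset.range (P τ).card).filter
      fun q => e τ q.2 ∈ supp (G q.1 τ)),
    fun D => idx (P τ).card (cmp (P τ).card D τ))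
  refine ⟨C, inferInstance, χ, fun c => c.1, e, fun c D a => (D, a) ∈ c.2.1, hinj, ?_, ?_, ?_⟩
  · intro D hD τ τ' hχ hττ a ha hI
    have hI' : e τ a ∈ supp (G D τ) := (Finset.mem_filter.mp hI).2
    rw [hG D τ τ' hττ] at hI'
    have h1 : e τ a ∈ P τ' := Finset.mem_biUnion.mpr ⟨D, Finset.mem_powerset.mpr hD, hI'⟩
    obtain ⟨a', ha', hea⟩ := hsurj τ' _ h1
    rw [hχ]
    refine ⟨a', ha', ?_, hea.symm⟩
    refine Finset.mem_filter.mpr ⟨Finset.mem_product.mpr ⟨Finset.mem_powerset.mpr hD,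
      Finset.mem_range.mpr ha'⟩, ?_⟩
    simp only
    rw [hea]
    exact hI'
  · intro D hD τ z z' hzz
    refine hsupp (G D τ) z z' fun k γ hγ => ?_
    have h1 : γ ∈ P τ := Finset.mem_biUnion.mpr ⟨D, Finset.mem_powerset.mpr hD, hγ⟩
    obtain ⟨a, ha, rfl⟩ := hsurj τ γ h1
    refine hzz k a ha ?_
    exact Finset.mem_filter.mpr ⟨Finset.mem_product.mpr ⟨Finset.mem_powerset.mpr hD,
      Finset.mem_range.mpr ha⟩, hγ⟩
  · intro D hD τ τ' hχ w
    have hp : (P τ).card = (P τ').card := congrArg Prod.fst hχ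
    have h1 : idx (P τ).card (cmp (P τ).card D τ) = idx (P τ').card (cmp (P τ').card D τ') :=
      congrFun (congrArg (fun c : C => c.2.2) hχ) ⟨D, Finset.mem_powerset.mpr hD⟩
    rw [← hp] at h1
    have h2 := hidx (P τ).card (cmp (P τ).card D τ)
    have h3 := hidx (P τ).card (cmp (P τ).card D τ')
    rw [h1] at h2
    have h4 := (dist_triangle_right (cmp (P τ).card D τ) (cmp (P τ).card D τ') _).trans
      (add_le_add h2.le h3.le)
    have h5 : (0 : ℝ) ≤ ε + ε := by positivity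
    have h6 := (ContinuousMap.dist_le h5).mp h4 w
    rw [Real.dist_eq] at h6
    rw [two_mul]
    exact h6

/-- The configuration attached to a family of functions. -/
theorem exists_conf {κ : Type u} (Γ : ℕ → Set κ)
    (hΓ : ∀ v : ℕ, #(Γ v) = ℵ_ ((v + 1 : ℕ) : Ordinal.{u})) {m : ℕ} (r : ℕ)
    (G : Finset ℕ → (ℕ → κ) → C(Fin m → Ball κ, ℝ))
    (hG : ∀ D τ τ', (∀ v ∈ D, τ v = τ' v) → G D τ = G D τ') {ε : ℝ} (hε : 0 < ε) :
    ∃ (p0 p1 : ℕ → κ) (p : ℕ) (B : ℕ → Finset ℕ) (e : Finset ℕ → ℕ → κ)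
      (I : Finset ℕ → ℕ → Prop),
      (∀ v < r, ∀ w < r, p0 v ≠ p1 w ∧ (p0 v = p0 w → v = w) ∧ (p1 v = p1 w → v = w)) ∧
      (∀ U ⊆ Finset.range r, ∀ U' ⊆ Finset.range r, ∀ a < p, ∀ a' < p,
        (e U a = e U' a' ↔ a = a' ∧ B a ∩ U = B a ∩ U')) ∧
      (∀ a, B a ⊆ Finset.range r) ∧
      (∀ D ⊆ Finset.range r, ∀ a < p, I D a → B a ⊆ D) ∧
      (∀ D ⊆ Finset.range r, ∀ U ⊆ Finset.range r, ∀ x x' : Fin m → Ball κ,
        (∀ k, ∀ a < p, I D a → (x' k).1 (e U a) = (x k).1 (e ∅ a)) →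
          |G D (sec p0 p1 U) x' - G D (sec p0 p1 ∅) x| ≤ 4 * ε) := by
  classical
  have hne : Nonempty κ := by
    by_contra h
    have h1 : IsEmpty κ := not_nonempty_iff.mp h
    have h2 := hΓ 0
    rw [mk_eq_zero] at h2
    have h3 := aleph0_le_aleph ((0 + 1 : ℕ) : Ordinal.{u})
    rw [← h2] at h3
    exact absurd h3 (not_le.mpr aleph0_pos)
  obtain ⟨C, hC, χ, sz, e, I, hinj, hdep, hsupp, hsame⟩ := exists_colour r G hG hε
  obtain ⟨p0, p1, c, B, -, -, hdist, hB, hcol, hpat⟩ := config Γ hΓ r χ sz e hinj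
    (fun _ => Classical.arbitrary κ)
  refine ⟨p0, p1, sz c, B, fun U a => e (sec p0 p1 U) a, I c, hdist, hpat, hB, ?_, ?_⟩
  · intro D hD a ha hI v hv
    by_contra hvD
    have h0 := hcol ∅ (Finset.empty_subset _)
    have hU' : (B a \ D) ⊆ Finset.range r := Finset.sdiff_subset.trans (hB a)
    have h1 := hcol _ hU'
    have h2 : ∀ v ∈ D, sec p0 p1 ∅ v = sec p0 p1 (B a \ D) v := by
      intro v hv
      simp [sec, hv]
    obtain ⟨a', ha', -, hea⟩ := hdep D hD _ _ (h0.trans h1.symm) h2 a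
      (by rw [h0]; exact ha) (by rw [h0]; exact hI)
    rw [h0] at ha'
    obtain ⟨rfl, h3⟩ := (hpat ∅ (Finset.empty_subset _) _ hU' a ha a' ha').mp hea
    have h4 : v ∈ B a ∩ (B a \ D) :=
      Finset.mem_inter.mpr ⟨hv, Finset.mem_sdiff.mpr ⟨hv, hvD⟩⟩
    rw [← h3] at h4
    simp at h4
  · intro D hD U hU x x' hx
    have h0 := hcol ∅ (Finset.empty_subset _)
    have hU1 := hcol U hU
    have hE0 : Function.Injective (fun a : Fin (sz c) => e (sec p0 p1 ∅) a) := by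
      intro a b hab
      exact Fin.ext ((hpat ∅ (Finset.empty_subset _) ∅ (Finset.empty_subset _) a a.2 b b.2).mp
        hab).1
    have hE1 : Function.Injective (fun a : Fin (sz c) => e (sec p0 p1 U) a) := by
      intro a b hab
      exact Fin.ext ((hpat U hU U hU a a.2 b b.2).mp hab).1
    let w : Fin m → Ball (Fin (sz c)) := fun k => res _ hE0 (x k)
    have h1 : |G D (sec p0 p1 ∅) (fun k => ext (fun a : Fin (sz c) => e (sec p0 p1 ∅) a) (w k)) -
        G D (sec p0 p1 ∅) x| ≤ ε := by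
      refine hsupp D hD _ _ _ fun k a ha hI => ?_
      rw [h0] at ha
      exact extF_apply _ hE0 _ ⟨a, ha⟩
    have h2 : |G D (sec p0 p1 U) x' -
        G D (sec p0 p1 U) (fun k => ext (fun a : Fin (sz c) => e (sec p0 p1 U) a) (w k))| ≤ ε := by
      refine hsupp D hD _ _ _ fun k a ha hI => ?_
      rw [hU1] at ha hI
      rw [hx k a ha hI]
      exact (extF_apply (fun a : Fin (sz c) => e (sec p0 p1 U) a) hE1 (w k).1 ⟨a, ha⟩).symm
    have h3 := hsame D hD _ _ (h0.trans hU1.symm)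
    rw [h0] at h3
    have h4 := h3 w
    rw [abs_le] at h1 h2 h4 ⊢
    constructor <;> linarith [h1.1, h1.2, h2.1, h2.2, h4.1, h4.2]

end Pool.Agent.TH50.BK
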