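import Mathlib

/-!
The combinatorial lemma on weights.
-/

set_option autoImplicit false

namespace Pool.Agent.TH50.BK

open Finset

/-- The top `N` elements of a finite set. -/
theorem exists_top (A : Finset ℕ) (ω : ℕ → ℝ) (N : ℕ) (hN : N ≤ #A) :
    ∃ H ⊆ A, #H = N ∧ ∃ s : ℝ, (∀ v ∈ H, s ≤ ω v) ∧ ∀ v ∈ A \ H, ω v ≤ s := by
  classical
  induction N with
  | zero =>
    refine ⟨∅, Finset.empty_subset _, rfl, ∑ v ∈ A, |ω v|, by simp, fun v hv => ?_⟩
    have hv' : v ∈ A := (Finset.mem_sdiff.mp hv).1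
    exact (le_abs_self _).trans (Finset.single_le_sum (f := fun v => |ω v|)
      (fun _ _ => abs_nonneg _) hv')
  | succ N ih =>
    obtain ⟨H, hHA, hHc, s, hs1, hs2⟩ := ih (by omega)
    have hne : (A \ H).Nonempty := by
      rw [Finset.sdiff_nonempty]
      intro h
      have := Finset.card_le_card h
      omega
    obtain ⟨v, hv, hvmax⟩ := Finset.exists_max_image (A \ H) ω hne
    have hvA := (Finset.mem_sdiff.mp hv).1
    have hvH := (Finset.mem_sdiff.mp hv).2
    refine ⟨insert v H, Finset.insert_subset hvA hHA, by rw [Finset.card_insert_of_notMem hvH, hHc],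
      ω v, ?_, ?_⟩
    · intro u hu
      rcases Finset.mem_insert.mp hu with rfl | hu
      · exact le_rfl
      · exact (hs2 v hv).trans (hs1 u hu)
    · intro u hu
      rw [Finset.mem_sdiff, Finset.mem_insert, not_or] at hu
      exact hvmax u (Finset.mem_sdiff.mpr ⟨hu.1, hu.2.2⟩)

/-- Greedy choice of disjoint sets. -/
theorem exists_disj {ι : Type} [Fintype ι] [DecidableEq ι] (H : ι → Finset ℕ) (s : ℕ)
    (hH : ∀ i, Fintype.card ι * s ≤ #(H i)) :
    ∃ R : ι → Finset ℕ, (∀ i, R i ⊆ H i) ∧ (∀ i, #(R i) = s) ∧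
      ∀ i j, i ≠ j → Disjoint (R i) (R j) := by
  classical
  suffices h : ∀ J : Finset ι, ∃ R : ι → Finset ℕ, (∀ i ∈ J, R i ⊆ H i) ∧ (∀ i ∈ J, #(R i) = s) ∧
      ∀ i ∈ J, ∀ j ∈ J, i ≠ j → Disjoint (R i) (R j) by
    obtain ⟨R, h1, h2, h3⟩ := h Finset.univ
    exact ⟨R, fun i => h1 i (Finset.mem_univ i), fun i => h2 i (Finset.mem_univ i),
      fun i j => h3 i (Finset.mem_univ i) j (Finset.mem_univ j)⟩
  intro J
  induction J using Finset.induction_on with
  | empty => exact ⟨fun _ => ∅, by simp, by simp, by simp⟩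
  | insert i J hi ih =>
    obtain ⟨R, h1, h2, h3⟩ := ih
    have hc : s ≤ #(H i \ J.biUnion R) := by
      have h4 := Finset.le_card_sdiff (J.biUnion R) (H i)
      have h5 : #(J.biUnion R) ≤ #J * s := Finset.card_biUnion_le_card_mul J R s
        fun j hj => (h2 j hj).le
      have h6 : #J + 1 ≤ Fintype.card ι := by
        rw [← Finset.card_insert_of_notMem hi]
        exact Finset.card_le_univ _
      have h7 := hH i
      have h8 : (#J + 1) * s ≤ Fintype.card ι * s := Nat.mul_le_mul_right s h6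
      have h9 : (#J + 1) * s = #J * s + s := by ring
      omega
    obtain ⟨Q, hQ, hQc⟩ := Finset.exists_subset_card_eq hc
    refine ⟨Function.update R i Q, ?_, ?_, ?_⟩
    · intro j hj
      by_cases hji : j = i
      · subst hji
        rw [Function.update_self]
        exact hQ.trans Finset.sdiff_subset
      · rw [Function.update_of_ne hji]
        exact h1 j ((Finset.mem_insert.mp hj).resolve_left hji)
    · intro j hj
      by_cases hji : j = i
      · subst hji
        rw [Function.update_self]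
        exact hQc
      · rw [Function.update_of_ne hji]
        exact h2 j ((Finset.mem_insert.mp hj).resolve_left hji)
    · have hQd : ∀ j ∈ J, Disjoint Q (R j) := by
        intro j hj
        rw [Finset.disjoint_left]
        intro v hv hv'
        exact (Finset.mem_sdiff.mp (hQ hv)).2 (Finset.mem_biUnion.mpr ⟨j, hj, hv'⟩)
      intro j hj l hl hjl
      by_cases hji : j = i
      · subst hji
        have hlj : l ≠ j := hjl.symm
        rw [Function.update_self, Function.update_of_ne hlj]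
        exact hQd l ((Finset.mem_insert.mp hl).resolve_left hlj)
      · by_cases hli : l = i
        · subst hli
          rw [Function.update_self, Function.update_of_ne hji]
          exact (hQd j ((Finset.mem_insert.mp hj).resolve_left hji)).symm
        · rw [Function.update_of_ne hji, Function.update_of_ne hli]
          exact h3 j ((Finset.mem_insert.mp hj).resolve_left hji) l
            ((Finset.mem_insert.mp hl).resolve_left hli) hjl

theorem comb {n m q K h0 : ℕ} (hmn : m < n) (A : Fin n → Finset ℕ)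
    (hA : ∀ j, m * (m * q * (K * h0)) + h0 ≤ #(A j))
    (hAd : ∀ i j, i ≠ j → Disjoint (A i) (A j)) (ω : Fin m → ℕ → ℝ) (hω : ∀ k v, 0 ≤ ω k v) :
    ∃ j, ∃ D1 ⊆ A j, #D1 = h0 ∧ ∃ R : Fin q → Finset ℕ, (∀ l, R l ⊆ univ.biUnion A) ∧
      (∀ l, Disjoint (R l) (A j)) ∧ (∀ l l', l ≠ l' → Disjoint (R l) (R l')) ∧
      ∀ k l, (K : ℝ) * ∑ v ∈ D1, ω k v ≤ ∑ v ∈ R l, ω k v := by
  classical
  have hn : 0 < n := by omega
  have : NeZero n := ⟨hn.ne'⟩
  -- top sets
  have htop : ∀ (k : Fin m) (j : Fin n), ∃ H ⊆ A j, #H = m * q * (K * h0) ∧ ∃ s : ℝ,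
      (∀ v ∈ H, s ≤ ω k v) ∧ ∀ v ∈ A j \ H, ω k v ≤ s := by
    intro k j
    refine exists_top (A j) (ω k) _ ?_
    have h1 := hA j
    have h2 : 1 ≤ m := by
      have := k.2
      omega
    have h3 : 1 * (m * q * (K * h0)) ≤ m * (m * q * (K * h0)) := Nat.mul_le_mul_right _ h2
    omega
  choose H hHA hHc s hs1 hs2 using htop
  -- the best side
  have hbest : ∀ k : Fin m, ∃ i : Fin n, ∀ j, s k j ≤ s k i := by
    intro k
    obtain ⟨i, -, hi⟩ := Finset.exists_max_image (Finset.univ : Finset (Fin n)) (s k)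
      ⟨0, Finset.mem_univ 0⟩
    exact ⟨i, fun j => hi j (Finset.mem_univ j)⟩
  choose i hi using hbest
  obtain ⟨j, hj⟩ : ∃ j : Fin n, ∀ k, i k ≠ j := by
    by_contra hcon
    push Not at hcon
    have h1 : Function.Surjective i := fun j => hcon j
    have h2 := Fintype.card_le_of_surjective i h1
    simp only [Fintype.card_fin] at h2
    omega
  have hD : h0 ≤ #(A j \ Finset.univ.biUnion fun k => H k j) := by
    have h4 := Finset.le_card_sdiff (Finset.univ.biUnion fun k => H k j) (A j)
    have h5 : #(Finset.univ.biUnion fun k => H k j) ≤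
        #(Finset.univ : Finset (Fin m)) * (m * q * (K * h0)) :=
      Finset.card_biUnion_le_card_mul _ _ _ fun k _ => (hHc k j).le
    rw [Finset.card_univ, Fintype.card_fin] at h5
    have h6 := hA j
    omega
  obtain ⟨D1, hD1, hD1c⟩ := Finset.exists_subset_card_eq hD
  -- the disjoint sets
  obtain ⟨R, hR1, hR2, hR3⟩ := exists_disj (ι := Fin m × Fin q) (fun x => H x.1 (i x.1)) (K * h0)
    (by
      intro x
      simp only [Fintype.card_prod, Fintype.card_fin]
      exact (hHc _ _).ge)
  refine ⟨j, D1, hD1.trans Finset.sdiff_subset, hD1c,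
    fun l => Finset.univ.biUnion fun k => R (k, l), ?_, ?_, ?_, ?_⟩
  · intro l v hv
    rw [Finset.mem_biUnion] at hv
    obtain ⟨k, -, hv⟩ := hv
    exact Finset.mem_biUnion.mpr ⟨i k, Finset.mem_univ _, hHA _ _ (hR1 _ hv)⟩
  · intro l
    rw [Finset.disjoint_left]
    intro v hv hvj
    rw [Finset.mem_biUnion] at hv
    obtain ⟨k, -, hv⟩ := hv
    exact Finset.disjoint_left.mp (hAd (i k) j (hj k)) (hHA _ _ (hR1 _ hv)) hvj
  · intro l l' hll
    rw [Finset.disjoint_left]
    intro v hv hv'
    rw [Finset.mem_biUnion] at hv hv'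
    obtain ⟨k, -, hv⟩ := hv
    obtain ⟨k', -, hv'⟩ := hv'
    refine Finset.disjoint_left.mp (hR3 (k, l) (k', l') ?_) hv hv'
    intro h
    exact hll (congrArg Prod.snd h)
  · intro k l
    have h1 : ∀ v ∈ D1, ω k v ≤ s k (i k) := by
      intro v hv
      have h2 := hD1 hv
      rw [Finset.mem_sdiff, Finset.mem_biUnion] at h2
      refine (hs2 k j v (Finset.mem_sdiff.mpr ⟨h2.1, fun h => h2.2 ⟨k, Finset.mem_univ k, h⟩⟩)).trans
        (hi k j)
    have h3 : ∑ v ∈ D1, ω k v ≤ h0 * s k (i k) := by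
      have := Finset.sum_le_card_nsmul D1 (ω k) (s k (i k)) h1
      rw [hD1c, nsmul_eq_mul] at this
      exact this
    have h4 : ((K * h0 : ℕ) : ℝ) * s k (i k) ≤ ∑ v ∈ R (k, l), ω k v := by
      have := Finset.card_nsmul_le_sum (R (k, l)) (ω k) (s k (i k))
        fun v hv => hs1 k (i k) v (hR1 (k, l) hv)
      rw [hR2, nsmul_eq_mul] at this
      exact this
    have h5 : ∑ v ∈ R (k, l), ω k v ≤ ∑ v ∈ Finset.univ.biUnion fun k => R (k, l), ω k v := by
      refine Finset.sum_le_sum_of_subset_of_nonneg ?_ fun v _ _ => hω k v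
      exact Finset.subset_biUnion_of_mem (fun k => R (k, l)) (Finset.mem_univ k)
    calc (K : ℝ) * ∑ v ∈ D1, ω k v ≤ K * (h0 * s k (i k)) :=
          mul_le_mul_of_nonneg_left h3 (Nat.cast_nonneg _)
      _ = ((K * h0 : ℕ) : ℝ) * s k (i k) := by push_cast; ring
      _ ≤ _ := h4.trans h5

end Pool.Agent.TH50.BK
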