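import Pool.Agent.Helper358.LOne

/-!
The spread-out point.
-/

set_option autoImplicit false

namespace Pool.Agent.TH50.BK

open Pool.Agent.Helper358.LOne Finset

universe u

/-- total weight of the small coordinates whose set contains `v` -/
noncomputable def wt {κ : Type u} (x : κ → ℝ) (p b0 : ℕ) (B : ℕ → Finset ℕ) (e : ℕ → κ) (v : ℕ) :
    ℝ := ∑ a ∈ range p, if #(B a) ≤ b0 ∧ v ∈ B a then |x (e a)| else 0

theorem wt_nonneg {κ : Type u} (x : κ → ℝ) (p b0 : ℕ) (B : ℕ → Finset ℕ) (e : ℕ → κ) (v : ℕ) :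
    0 ≤ wt x p b0 B e v :=
  Finset.sum_nonneg fun a _ => by split_ifs <;> simp

theorem sum_wt {κ : Type u} (x : κ → ℝ) (p b0 : ℕ) (B : ℕ → Finset ℕ) (e : ℕ → κ)
    (D : Finset ℕ) : ∑ v ∈ D, wt x p b0 B e v =
      ∑ a ∈ range p, (if #(B a) ≤ b0 then (#(B a ∩ D) : ℝ) * |x (e a)| else 0) := by
  unfold wt
  rw [Finset.sum_comm]
  refine Finset.sum_congr rfl fun a _ => ?_
  by_cases h : #(B a) ≤ b0
  · simp only [h, true_and, if_true]
    rw [← Finset.sum_filter, Finset.sum_const, nsmul_eq_mul]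
    congr 3
    ext v
    simp [and_comm]
  · simp [h]

theorem exists_plus {κ : Type u} (x : Ball κ) {r p b0 h0 : ℕ} (hb0 : 0 < b0)
    (B : ℕ → Finset ℕ) (e : Finset ℕ → ℕ → κ)
    (hpat : ∀ U ⊆ Finset.range r, ∀ U' ⊆ Finset.range r, ∀ a < p, ∀ a' < p,
        (e U a = e U' a' ↔ a = a' ∧ B a ∩ U = B a ∩ U'))
    (D1 R : Finset ℕ) (hD1 : D1 ⊆ range r) (hD1c : #D1 = h0)
    (hw : ((b0 * 2 ^ h0 : ℕ) : ℝ) * ∑ v ∈ D1, wt x.1 p b0 B (e ∅) v ≤
      ∑ v ∈ R, wt x.1 p b0 B (e ∅) v) :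
    ∃ x' : Ball κ, ∀ U ⊆ D1, ∀ a < p, #(B a) ≤ b0 → Disjoint (B a) R →
      x'.1 (e U a) = x.1 (e ∅ a) := by
  classical
  let Fs : Finset (ℕ × Finset ℕ) := (range p ×ˢ D1.powerset).filter fun q =>
    q.2 ⊆ B q.1 ∧ #(B q.1) ≤ b0 ∧ Disjoint (B q.1) R
  let E : Fs → κ := fun q => e q.1.2 q.1.1
  have hE : Function.Injective E := by
    rintro ⟨⟨a, W⟩, hq⟩ ⟨⟨a', W'⟩, hq'⟩ h
    have h1 := Finset.mem_filter.mp hq
    have h1' := Finset.mem_filter.mp hq'
    simp only [Finset.mem_product, Finset.mem_range, Finset.mem_powerset] at h1 h1'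
    obtain ⟨⟨h2, h3⟩, h4, -⟩ := h1
    obtain ⟨⟨h2', h3'⟩, h4', -⟩ := h1'
    obtain ⟨rfl, h5⟩ := (hpat W (h3.trans hD1) W' (h3'.trans hD1) a h2 a' h2').mp h
    rw [Finset.inter_eq_right.mpr h4, Finset.inter_eq_right.mpr h4'] at h5
    subst h5
    rfl
  let v : Fs → ℝ := fun q => x.1 (e ∅ q.1.1)
  have hx1 : ∑ a ∈ range p, |x.1 (e ∅ a)| ≤ 1 := by
    have h1 := x.2 ((range p).image (e ∅))
    rw [Finset.sum_image] at h1
    · exact h1
    · intro a ha a' ha' h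
      exact ((hpat ∅ (Finset.empty_subset _) ∅ (Finset.empty_subset _) a
        (Finset.mem_range.mp ha) a' (Finset.mem_range.mp ha')).mp h).1
  have hv : ∑ q, |v q| ≤ 1 := by
    have h1 : ∑ q : Fs, |v q| = ∑ q ∈ Fs, |x.1 (e ∅ q.1)| :=
      Finset.sum_coe_sort Fs (fun q => |x.1 (e ∅ q.1)|)
    rw [h1]
    have h2 : ∑ q ∈ Fs, |x.1 (e ∅ q.1)| = ∑ a ∈ range p,
        (if #(B a) ≤ b0 ∧ Disjoint (B a) R then
          ∑ W ∈ (D1 ∩ B a).powerset, |x.1 (e ∅ a)| else 0) := by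
      rw [Finset.sum_filter, Finset.sum_product]
      refine Finset.sum_congr rfl fun a _ => ?_
      simp only
      split_ifs with h3
      · rw [← Finset.sum_filter]
        refine Finset.sum_congr ?_ fun _ _ => rfl
        ext W
        simp only [Finset.mem_filter, Finset.mem_powerset, Finset.subset_inter_iff, h3.1, h3.2,
          and_true]
      · refine Finset.sum_eq_zero fun W _ => ?_
        rw [if_neg]
        exact fun h => h3 h.2
    rw [h2]
    have h3 : ∀ a ∈ range p, (if #(B a) ≤ b0 ∧ Disjoint (B a) R then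
          ∑ W ∈ (D1 ∩ B a).powerset, |x.1 (e ∅ a)| else 0) ≤
        |x.1 (e ∅ a)| + (2 ^ h0 * (if #(B a) ≤ b0 then (#(B a ∩ D1) : ℝ) * |x.1 (e ∅ a)| else 0) -
          (1 / b0) * (if #(B a) ≤ b0 then (#(B a ∩ R) : ℝ) * |x.1 (e ∅ a)| else 0)) := by
      intro a _
      have hxa : 0 ≤ |x.1 (e ∅ a)| := abs_nonneg _
      have hb0' : (0 : ℝ) < b0 := by exact_mod_cast hb0
      by_cases h4 : #(B a) ≤ b0
      · rw [if_pos h4, if_pos h4]
        by_cases h5 : Disjoint (B a) R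
        · rw [if_pos ⟨h4, h5⟩, Finset.sum_const, Finset.card_powerset, nsmul_eq_mul,
            Finset.disjoint_iff_inter_eq_empty.mp h5, Finset.card_empty, Nat.cast_zero, zero_mul,
            mul_zero, sub_zero, Finset.inter_comm (B a) D1]
          have h6 : ((2 ^ #(D1 ∩ B a) : ℕ) : ℝ) ≤ 1 + 2 ^ h0 * #(D1 ∩ B a) := by
            rcases Nat.eq_zero_or_pos #(D1 ∩ B a) with h7 | h7
            · rw [h7]
              simp
            · have h8 : #(D1 ∩ B a) ≤ h0 := hD1c ▸ Finset.card_le_card Finset.inter_subset_left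
              have h9 : 2 ^ #(D1 ∩ B a) ≤ 1 + 2 ^ h0 * #(D1 ∩ B a) := by
                calc 2 ^ #(D1 ∩ B a) ≤ 2 ^ h0 := Nat.pow_le_pow_right (by norm_num) h8
                  _ = 2 ^ h0 * 1 := (mul_one _).symm
                  _ ≤ 2 ^ h0 * #(D1 ∩ B a) := Nat.mul_le_mul_left _ h7
                  _ ≤ 1 + 2 ^ h0 * #(D1 ∩ B a) := Nat.le_add_left _ _
              exact_mod_cast h9
          calc ((2 ^ #(D1 ∩ B a) : ℕ) : ℝ) * |x.1 (e ∅ a)|
              ≤ (1 + 2 ^ h0 * #(D1 ∩ B a)) * |x.1 (e ∅ a)| := mul_le_mul_of_nonneg_right h6 hxa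
            _ = _ := by ring
        · rw [if_neg fun h => h5 h.2]
          have h6 : (#(B a ∩ R) : ℝ) ≤ b0 := by
            exact_mod_cast (Finset.card_le_card Finset.inter_subset_left).trans h4
          have h7 : (1 / b0 : ℝ) * ((#(B a ∩ R) : ℝ) * |x.1 (e ∅ a)|) ≤ |x.1 (e ∅ a)| := by
            calc (1 / b0 : ℝ) * ((#(B a ∩ R) : ℝ) * |x.1 (e ∅ a)|)
                ≤ (1 / b0 : ℝ) * ((b0 : ℝ) * |x.1 (e ∅ a)|) := by
                  refine mul_le_mul_of_nonneg_left ?_ (by positivity)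
                  exact mul_le_mul_of_nonneg_right h6 hxa
              _ = |x.1 (e ∅ a)| := by
                  field_simp
          have h8 : 0 ≤ (2 : ℝ) ^ h0 * ((#(B a ∩ D1) : ℝ) * |x.1 (e ∅ a)|) := by positivity
          linarith
      · rw [if_neg fun h => h4 h.1, if_neg h4, if_neg h4]
        simp
    refine (Finset.sum_le_sum h3).trans ?_
    rw [Finset.sum_add_distrib, Finset.sum_sub_distrib, ← Finset.mul_sum, ← Finset.mul_sum,
      ← sum_wt, ← sum_wt]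
    have hb0' : (0 : ℝ) < b0 := by exact_mod_cast hb0
    have h5 : 2 ^ h0 * ∑ v ∈ D1, wt x.1 p b0 B (e ∅) v ≤
        1 / (b0 : ℝ) * ∑ v ∈ R, wt x.1 p b0 B (e ∅) v := by
      have h6 := mul_le_mul_of_nonneg_left hw (by positivity : (0 : ℝ) ≤ 1 / b0)
      refine le_trans (le_of_eq ?_) h6
      push_cast
      field_simp
    linarith
  refine ⟨ext E ⟨v, mem_Ball_of_fintype hv⟩, fun U hU a ha hba hdis => ?_⟩
  have hW : ((a, B a ∩ U) : ℕ × Finset ℕ) ∈ Fs := by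
    refine Finset.mem_filter.mpr ⟨Finset.mem_product.mpr ⟨Finset.mem_range.mpr ha,
      Finset.mem_powerset.mpr (Finset.inter_subset_right.trans hU)⟩, Finset.inter_subset_left,
      hba, hdis⟩
  have h1 : e U a = E ⟨(a, B a ∩ U), hW⟩ := by
    refine (hpat U (hU.trans hD1) (B a ∩ U) ((Finset.inter_subset_right.trans hU).trans hD1)
      a ha a ha).mpr ⟨rfl, ?_⟩
    rw [← Finset.inter_assoc, Finset.inter_self]
  rw [h1]
  exact extF_apply E hE v ⟨(a, B a ∩ U), hW⟩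

end Pool.Agent.TH50.BK
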