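import Pool.Agent.Helper358.LOne
import Pool.Agent.TH50.BK.Config

/-!
The test functions.
-/

set_option autoImplicit false

namespace Pool.Agent.TH50.BK

open Pool.Agent.Helper358.LOne Finset

universe u

/-- the cut-off function -/
noncomputable def cut (N : ℕ) (s : ℝ) : ℝ := max 0 (min 1 ((s - 1 / (N + 1)) * (N * (N + 1))))

theorem cut_nonneg (N : ℕ) (s : ℝ) : 0 ≤ cut N s := le_max_left _ _

theorem cut_le_one (N : ℕ) (s : ℝ) : cut N s ≤ 1 :=
  max_le zero_le_one (min_le_left _ _)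

theorem continuous_cut (N : ℕ) : Continuous (cut N) := by
  unfold cut
  fun_prop

theorem cut_inv {N : ℕ} (hN : 0 < N) : cut N (1 / N) = 1 := by
  have hN' : (0 : ℝ) < N := by exact_mod_cast hN
  have h1 : ((1 / N : ℝ) - 1 / (N + 1)) * (N * (N + 1)) = 1 := by
    field_simp
    ring
  unfold cut
  rw [h1, min_self]
  exact max_eq_right zero_le_one

theorem lt_of_cut_ne {N : ℕ} {s : ℝ} (h : cut N s ≠ 0) : 1 / (N + 1 : ℝ) < s := by
  by_contra hcon
  push Not at hcon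
  apply h
  unfold cut
  refine max_eq_left ?_
  refine (min_le_right _ _).trans ?_
  exact mul_nonpos_of_nonpos_of_nonneg (by linarith) (by positivity)

/-- test functions -/
noncomputable def gF {κ : Type u} {n : ℕ} (N : ℕ) (side : ℕ → Fin n) (D : Finset ℕ)
    (τ : ℕ → κ) : C(Fin n → Ball κ, ℝ) :=
  ⟨fun y => ∏ v ∈ D, cut N ((y (side v)).1 (τ v)), by
    refine continuous_finsetProd _ fun v _ => (continuous_cut N).comp ?_
    exact (continuous_apply (τ v)).comp (continuous_subtype_val.comp (continuous_apply (side v)))⟩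

theorem gF_apply {κ : Type u} {n : ℕ} (N : ℕ) (side : ℕ → Fin n) (D : Finset ℕ)
    (τ : ℕ → κ) (y : Fin n → Ball κ) :
    gF N side D τ y = ∏ v ∈ D, cut N ((y (side v)).1 (τ v)) := rfl

theorem gF_congr {κ : Type u} {n : ℕ} (N : ℕ) (side : ℕ → Fin n) (D : Finset ℕ)
    (τ τ' : ℕ → κ) (h : ∀ v ∈ D, τ v = τ' v) : gF N side D τ = gF N side D τ' := by
  ext y
  rw [gF_apply, gF_apply]
  refine Finset.prod_congr rfl fun v hv => ?_
  rw [h v hv]

theorem gF_nonneg {κ : Type u} {n : ℕ} (N : ℕ) (side : ℕ → Fin n) (D : Finset ℕ)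
    (τ : ℕ → κ) (y : Fin n → Ball κ) : 0 ≤ gF N side D τ y :=
  Finset.prod_nonneg fun _ _ => cut_nonneg _ _

theorem gF_le_one {κ : Type u} {n : ℕ} (N : ℕ) (side : ℕ → Fin n) (D : Finset ℕ)
    (τ : ℕ → κ) (y : Fin n → Ball κ) : gF N side D τ y ≤ 1 :=
  Finset.prod_le_one (fun _ _ => cut_nonneg _ _) fun _ _ => cut_le_one _ _

/-- There is a point where the test function is one. -/
theorem exists_gF_eq_one {κ : Type u} {n N : ℕ} (hN : 0 < N) (side : ℕ → Fin n) (D : Finset ℕ)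
    (τ : ℕ → κ) (hτ : ∀ v ∈ D, ∀ w ∈ D, τ v = τ w → v = w)
    (hD : ∀ j, #{v ∈ D | side v = j} ≤ N) : ∃ y, gF N side D τ y = 1 := by
  classical
  have hN' : (0 : ℝ) < N := by exact_mod_cast hN
  let E : (j : Fin n) → {v // v ∈ {v ∈ D | side v = j}} → κ := fun j v => τ v.1
  have hE : ∀ j, Function.Injective (E j) := by
    intro j v w h
    exact Subtype.ext (hτ v.1 (Finset.mem_filter.mp v.2).1 w.1 (Finset.mem_filter.mp w.2).1 h)
  have hv : ∀ j, ∑ _v : {v // v ∈ {v ∈ D | side v = j}}, |(1 / N : ℝ)| ≤ 1 := by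
    intro j
    rw [Finset.sum_const, Finset.card_univ, Fintype.card_coe, nsmul_eq_mul,
      abs_of_pos (by positivity), mul_one_div, div_le_one hN']
    exact_mod_cast hD j
  refine ⟨fun j => ext (E j) ⟨fun _ => (1 / N : ℝ), mem_Ball_of_fintype (hv j)⟩, ?_⟩
  rw [gF_apply]
  refine Finset.prod_eq_one fun v hv' => ?_
  have h1 : (ext (E (side v)) ⟨fun _ => (1 / N : ℝ), mem_Ball_of_fintype (hv (side v))⟩).1 (τ v) =
      1 / N := extF_apply (E (side v)) (hE (side v)) (fun _ => (1 / N : ℝ))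
        ⟨v, Finset.mem_filter.mpr ⟨hv', rfl⟩⟩
  rw [h1]
  exact cut_inv hN

/-- Different sections have disjoint supports. -/
theorem gF_disj {κ : Type u} {n N r : ℕ} (side : ℕ → Fin n) (D D1 : Finset ℕ)
    (p0 p1 : ℕ → κ) (hdist : ∀ v < r, ∀ w < r, p0 v ≠ p1 w ∧ (p0 v = p0 w → v = w) ∧
      (p1 v = p1 w → v = w)) (j : Fin n) (A : Finset ℕ) (hA : ∀ v ∈ A, v < r ∧ side v = j)
    (hAD : A ⊆ D) (hAN : #A = N) (hD1 : D1 ⊆ A) (y : Fin n → Ball κ) (U U' : Finset ℕ)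
    (hU : U ⊆ D1) (hU' : U' ⊆ D1) (h : gF N side D (sec p0 p1 U) y ≠ 0)
    (h' : gF N side D (sec p0 p1 U') y ≠ 0) : U = U' := by
  classical
  by_contra hne
  have hN : (0 : ℝ) < N + 1 := by positivity
  rw [gF_apply] at h h'
  have hbig : ∀ U, ∏ v ∈ D, cut N ((y (side v)).1 (sec p0 p1 U v)) ≠ 0 →
      ∀ v ∈ A, 1 / (N + 1 : ℝ) < (y j).1 (sec p0 p1 U v) := by
    intro U h v hv
    have h1 := Finset.prod_ne_zero_iff.mp h v (hAD hv)
    have h2 := lt_of_cut_ne h1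
    rwa [(hA v hv).2] at h2
  have hb := hbig U h
  have hb' := hbig U' h'
  -- injectivity of sections
  have hsinj : ∀ U U' : Finset ℕ, ∀ v ∈ A, ∀ w ∈ A, sec p0 p1 U v = sec p0 p1 U' w →
      v = w ∧ (v ∈ U ↔ w ∈ U') := by
    intro U U' v hv w hw hvw
    have hd := hdist v (hA v hv).1 w (hA w hw).1
    have hd' := hdist w (hA w hw).1 v (hA v hv).1
    by_cases h1 : v ∈ U
    · by_cases h2 : w ∈ U'
      · simp only [sec, if_pos h1, if_pos h2] at hvw
        exact ⟨hd.2.2 hvw, by simp [h1, h2]⟩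
      · simp only [sec, if_pos h1, if_neg h2] at hvw
        exact absurd hvw.symm hd'.1
    · by_cases h2 : w ∈ U'
      · simp only [sec, if_neg h1, if_pos h2] at hvw
        exact absurd hvw hd.1
      · simp only [sec, if_neg h1, if_neg h2] at hvw
        exact ⟨hd.2.1 hvw, by simp [h1, h2]⟩
  obtain ⟨v, hv⟩ : ∃ v, ¬ (v ∈ U ↔ v ∈ U') := by
    by_contra hcon
    push Not at hcon
    exact hne (Finset.ext hcon)
  have hvA : v ∈ A := by
    by_contra hvA
    apply hv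
    exact ⟨fun h => absurd (hD1 (hU h)) hvA, fun h => absurd (hD1 (hU' h)) hvA⟩
  have hnot : sec p0 p1 U' v ∉ A.image (sec p0 p1 U) := by
    intro hmem
    obtain ⟨w, hw, hwv⟩ := Finset.mem_image.mp hmem
    obtain ⟨rfl, h3⟩ := hsinj U U' w hw v hvA hwv
    exact hv h3
  have h4 := (y j).2 (insert (sec p0 p1 U' v) (A.image (sec p0 p1 U)))
  rw [Finset.sum_insert hnot, Finset.sum_image (fun a ha b hb hab =>
    (hsinj U U a ha b hb hab).1)] at h4
  have h5 : 1 / (N + 1 : ℝ) < |(y j).1 (sec p0 p1 U' v)| := (hb' v hvA).trans_le (le_abs_self _)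
  have h6 : #A • (1 / (N + 1 : ℝ)) ≤ ∑ a ∈ A, |(y j).1 (sec p0 p1 U a)| :=
    Finset.card_nsmul_le_sum A _ _ fun a ha => ((hb a ha).trans_le (le_abs_self _)).le
  rw [hAN, nsmul_eq_mul] at h6
  have h7 : (1 / (N + 1 : ℝ)) + N * (1 / (N + 1 : ℝ)) = 1 := by
    field_simp
    ring
  linarith

/-- signed sums of sections -/
theorem gF_signed {κ : Type u} {n N r : ℕ} (side : ℕ → Fin n) (D D1 : Finset ℕ)
    (p0 p1 : ℕ → κ) (hdist : ∀ v < r, ∀ w < r, p0 v ≠ p1 w ∧ (p0 v = p0 w → v = w) ∧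
      (p1 v = p1 w → v = w)) (j : Fin n) (A : Finset ℕ) (hA : ∀ v ∈ A, v < r ∧ side v = j)
    (hAD : A ⊆ D) (hAN : #A = N) (hD1 : D1 ⊆ A) (s : Finset ℕ → ℝ) (hs : ∀ U, |s U| ≤ 1) :
    ‖∑ U ∈ D1.powerset, s U • gF N side D (sec p0 p1 U)‖ ≤ 1 := by
  classical
  refine (ContinuousMap.norm_le _ zero_le_one).mpr fun y => ?_
  rw [ContinuousMap.sum_apply]
  simp only [ContinuousMap.smul_apply, smul_eq_mul]
  by_cases h : ∃ U ∈ D1.powerset, gF N side D (sec p0 p1 U) y ≠ 0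
  · obtain ⟨U, hU, hne⟩ := h
    rw [Finset.sum_eq_single U]
    · rw [Real.norm_eq_abs, abs_mul, abs_of_nonneg (gF_nonneg _ _ _ _ _)]
      calc |s U| * gF N side D (sec p0 p1 U) y ≤ 1 * 1 :=
            mul_le_mul (hs U) (gF_le_one _ _ _ _ _) (gF_nonneg _ _ _ _ _) zero_le_one
        _ = 1 := one_mul 1
    · intro U' hU' hUU
      by_contra hne'
      have hne'' : gF N side D (sec p0 p1 U') y ≠ 0 := fun h => hne' (by rw [h, mul_zero])
      exact hUU (gF_disj side D D1 p0 p1 hdist j A hA hAD hAN hD1 y U' U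
        (Finset.mem_powerset.mp hU') (Finset.mem_powerset.mp hU) hne'' hne)
    · intro h
      exact absurd hU h
  · push Not at h
    rw [Finset.sum_eq_zero fun U hU => by rw [h U hU, mul_zero], norm_zero]
    exact zero_le_one

end Pool.Agent.TH50.BK
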