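import Pool.Agent.TH50.BK.And
import Pool.Agent.TH50.BK.Comb
import Pool.Agent.TH50.BK.Colour
import Pool.Agent.TH50.BK.Plus
import Pool.Agent.TH50.BK.Test

/-!
`C(B(κ)^n)` does not embed into `C(B(κ)^m)` for `m < n` and `κ ≥ ℵ_ω`.
-/

set_option autoImplicit false

namespace Pool.Agent.TH50.BK

open Pool.Agent.Helper358.LOne Finset

universe u

theorem exists_params (n m : ℕ) (M c : ℝ) (hc : 0 < c) :
    ∃ h0 q k : ℕ, 0 < h0 ∧ 0 < q ∧ M ≤ c / 8 * 2 ^ h0 ∧ M ≤ c / 8 * q ∧
      (2 * (n * (m * (m * q * ((2 ^ k * 2 ^ h0) * h0)) + h0) : ℕ) + 1 : ℝ) ≤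
        c / (32 * (|M| + 1)) * 4 ^ k := by
  have h8 : 0 < c / 8 := by positivity
  obtain ⟨h1, hh1⟩ := pow_unbounded_of_one_lt (M / (c / 8)) (by norm_num : (1 : ℝ) < 2)
  obtain ⟨q1, hq1⟩ := exists_nat_gt (M / (c / 8))
  rw [div_lt_iff₀ h8] at hh1 hq1
  have hh2 : M ≤ c / 8 * 2 ^ (h1 + 1) := by
    have h2 : (2 : ℝ) ^ h1 ≤ 2 ^ (h1 + 1) := pow_le_pow_right₀ (by norm_num) (by omega)
    have := mul_le_mul_of_nonneg_left h2 h8.le
    linarith
  have hq2 : M ≤ c / 8 * ((q1 + 1 : ℕ) : ℝ) := by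
    push_cast
    have : c / 8 * (q1 + 1 : ℝ) = q1 * (c / 8) + c / 8 := by ring
    linarith
  set h0 := h1 + 1 with hh0
  set q := q1 + 1 with hqq
  set δ := c / (32 * (|M| + 1)) with hδ
  have hδ0 : 0 < δ := by positivity
  set A : ℕ := n * (m * (m * q * (2 ^ h0 * h0)) + h0) with hA
  obtain ⟨k, hk⟩ := pow_unbounded_of_one_lt ((2 * A + 1) / δ) (by norm_num : (1 : ℝ) < 2)
  rw [div_lt_iff₀ hδ0] at hk
  refine ⟨h0, q, k, by omega, by omega, hh2, hq2, ?_⟩
  have h1k : 1 ≤ 2 ^ k := Nat.one_le_two_pow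
  have h3 : n * (m * (m * q * ((2 ^ k * 2 ^ h0) * h0)) + h0) ≤ A * 2 ^ k := by
    have h4 : h0 ≤ h0 * 2 ^ k := Nat.le_mul_of_pos_right _ (by omega)
    calc n * (m * (m * q * ((2 ^ k * 2 ^ h0) * h0)) + h0)
        ≤ n * (m * (m * q * ((2 ^ k * 2 ^ h0) * h0)) + h0 * 2 ^ k) :=
          Nat.mul_le_mul_left _ (Nat.add_le_add_left h4 _)
      _ = A * 2 ^ k := by rw [hA]; ring
  have h5 : (2 * (n * (m * (m * q * ((2 ^ k * 2 ^ h0) * h0)) + h0) : ℕ) + 1 : ℝ) ≤
      (2 * A + 1) * 2 ^ k := by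
    have h6 : 2 * (n * (m * (m * q * ((2 ^ k * 2 ^ h0) * h0)) + h0)) + 1 ≤
        (2 * A + 1) * 2 ^ k := by nlinarith
    exact_mod_cast h6
  refine h5.trans ?_
  have h7 : (4 : ℝ) ^ k = 2 ^ k * 2 ^ k := by
    rw [← mul_pow]; norm_num
  rw [h7]
  have h8' : (0 : ℝ) < 2 ^ k := by positivity
  calc (2 * A + 1 : ℝ) * 2 ^ k ≤ (2 ^ k * δ) * 2 ^ k := mul_le_mul_of_nonneg_right hk.le h8'.le
    _ = δ * (2 ^ k * 2 ^ k) := by ring

theorem no_embedding {κ : Type u} (Γ : ℕ → Set κ)
    (hΓ : ∀ v : ℕ, Cardinal.mk (Γ v) = Cardinal.aleph ((v + 1 : ℕ) : Ordinal.{u})) {m n : ℕ} (hmn : m < n)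
    (T : C(Fin n → Ball κ, ℝ) →L[ℝ] C(Fin m → Ball κ, ℝ)) {c : ℝ} (hc : 0 < c)
    (hT : ∀ f, c * ‖f‖ ≤ ‖T f‖) : False := by
  classical
  obtain ⟨h0, q, k, hh0, hq, hMh, hMq, hk⟩ := exists_params n m ‖T‖ c hc
  set b0 : ℕ := 2 ^ k with hb0
  have hb0pos : 0 < b0 := by positivity
  set N : ℕ := m * (m * q * ((b0 * 2 ^ h0) * h0)) + h0 with hN
  have hNpos : 0 < N := by omega
  have hnpos : 0 < n := by omega
  set δ : ℝ := c / (32 * (|‖T‖| + 1)) with hδ
  have hTδ : ‖T‖ * δ ≤ c / 32 := by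
    rw [hδ, abs_of_nonneg (norm_nonneg T)]
    have h1 : 0 ≤ ‖T‖ := norm_nonneg T
    rw [mul_div_assoc', div_le_div_iff₀ (by positivity) (by norm_num)]
    nlinarith
  let side : ℕ → Fin n := fun v => ⟨v / N % n, Nat.mod_lt _ hnpos⟩
  let V : Finset ℕ := range (n * N)
  let A : Fin n → Finset ℕ := fun j => Finset.Ico (j * N) ((j + 1) * N)
  have hAc : ∀ j, #(A j) = N := by
    intro j
    simp only [A, Nat.card_Ico]
    rw [add_mul, one_mul, Nat.add_sub_cancel_left]
  have hAV : ∀ j, ∀ v ∈ A j, v < n * N ∧ side v = j := by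
    intro j v hv
    rw [Finset.mem_Ico] at hv
    have h1 : v / N = j := by
      rw [Nat.div_eq_iff hNpos]
      constructor
      · exact hv.1
      · have := hv.2
        rw [add_mul, one_mul] at this
        omega
    have hj : (j : ℕ) + 1 ≤ n := j.2
    have h2 : ((j : ℕ) + 1) * N ≤ n * N := Nat.mul_le_mul_right N hj
    refine ⟨by omega, ?_⟩
    apply Fin.ext
    simp only [side, h1]
    exact Nat.mod_eq_of_lt j.2
  have hVA : ∀ j, ∀ v ∈ V, side v = j → v ∈ A j := by
    intro j v hv hs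
    have hv' : v < n * N := Finset.mem_range.mp hv
    have h1 : v / N < n := (Nat.div_lt_iff_lt_mul hNpos).mpr hv'
    have h2 := congrArg Fin.val hs
    simp only [side] at h2
    rw [Nat.mod_eq_of_lt h1] at h2
    rw [Finset.mem_Ico, ← h2]
    refine ⟨Nat.div_mul_le_self v N, ?_⟩
    rw [add_mul, one_mul]
    exact Nat.lt_div_mul_add hNpos
  have hAd : ∀ i j, i ≠ j → Disjoint (A i) (A j) := by
    intro i j hij
    rw [Finset.disjoint_left]
    intro v hv hv'
    exact hij ((hAV i v hv).2.symm.trans (hAV j v hv').2)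
  -- coefficients
  have hco : ∀ D : Finset ℕ, ∃ co : Finset ℕ → ℝ, D ⊆ V → ∀ φ : ℕ → ℝ,
      (∀ v ∈ D, 0 ≤ φ v ∧ φ v ≤ 1) →
      |∏ v ∈ D, φ v - ∑ B ∈ D.powerset with #B ≤ b0, co B * ∏ v ∈ B, φ v| ≤ δ := by
    intro D
    by_cases hD : D ⊆ V
    · have h1 : (2 * #D + 1 : ℝ) ≤ δ * 4 ^ k := by
        have h2 : #D ≤ n * N := by
          have := Finset.card_le_card hD
          rwa [Finset.card_range] at this
        have h3 : (#D : ℝ) ≤ ((n * N : ℕ) : ℝ) := by exact_mod_cast h2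
        refine le_trans ?_ hk
        linarith
      obtain ⟨co, hco⟩ := exists_and D k h1
      exact ⟨co, fun _ => hco⟩
    · exact ⟨fun _ => 0, fun h => absurd h hD⟩
  choose co hco using hco
  set Sbig : ℝ := ∑ D ∈ V.powerset, ∑ B ∈ D.powerset with #B ≤ b0, |co D B| with hSbig
  have hSbig0 : 0 ≤ Sbig := Finset.sum_nonneg fun D _ => Finset.sum_nonneg fun B _ => abs_nonneg _
  set ε : ℝ := c / (64 * (Sbig + 1)) with hε
  have hε0 : 0 < ε := by positivity
  have hSε : Sbig * (4 * ε) ≤ c / 16 := by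
    rw [hε]
    have h1 : Sbig * (4 * (c / (64 * (Sbig + 1)))) = (c / 16) * (Sbig / (Sbig + 1)) := by
      field_simp
      ring
    rw [h1]
    have h2 : Sbig / (Sbig + 1) ≤ 1 := by
      rw [div_le_one (by positivity)]
      linarith
    have h3 : 0 ≤ c / 16 := by positivity
    calc (c / 16) * (Sbig / (Sbig + 1)) ≤ (c / 16) * 1 := mul_le_mul_of_nonneg_left h2 h3
      _ = c / 16 := mul_one _
  obtain ⟨p0, p1, p, B, e, I, hdist, hpat, hB, hBI, htr⟩ := exists_conf Γ hΓ (n * N)
    (fun D τ => T (gF N side D τ)) (fun D τ τ' h => by rw [gF_congr N side D τ τ' h]) hε0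
  -- pointwise estimate
  have hTb : ∀ (f : C(Fin n → Ball κ, ℝ)) (b : ℝ), 0 ≤ b → (∀ y, |f y| ≤ b) →
      ∀ x, |T f x| ≤ ‖T‖ * b := by
    intro f b hb hf x
    have h1 : ‖f‖ ≤ b := (ContinuousMap.norm_le _ hb).mpr fun y => by
      rw [Real.norm_eq_abs]; exact hf y
    calc |T f x| = ‖T f x‖ := (Real.norm_eq_abs _).symm
      _ ≤ ‖T f‖ := (T f).norm_coe_le_norm x
      _ ≤ ‖T‖ * ‖f‖ := T.le_opNorm f
      _ ≤ ‖T‖ * b := mul_le_mul_of_nonneg_left h1 (norm_nonneg T)
  have hδ0 : 0 ≤ δ := by positivity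
  have hmain : ∀ x, |T (gF N side V (sec p0 p1 ∅)) x| ≤ 3 * c / 8 := by
    intro x
    obtain ⟨j, D1, hD1A, hD1c, R, hRV, hRA, hRd, hRw⟩ := comb (q := q) (K := b0 * 2 ^ h0)
      (h0 := h0) hmn A (fun j => (hAc j).ge) hAd
      (fun k v => wt (x k).1 p b0 B (e ∅) v) (fun k v => wt_nonneg _ _ _ _ _ _)
    have hD1r : D1 ⊆ range (n * N) := fun v hv => Finset.mem_range.mpr (hAV j v (hD1A hv)).1
    have hl : ∀ l, |T (gF N side (V \ R l) (sec p0 p1 ∅)) x| ≤ c / 4 := by
      intro l
      have hx' : ∀ k, ∃ x' : Ball κ, ∀ U ⊆ D1, ∀ a < p, #(B a) ≤ b0 → Disjoint (B a) (R l) →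
          x'.1 (e U a) = (x k).1 (e ∅ a) := fun k =>
        exists_plus (x k) hb0pos B e hpat D1 (R l) hD1r hD1c (hRw k l)
      choose x' hx' using hx'
      have hDV : V \ R l ⊆ V := Finset.sdiff_subset
      -- linearised functions
      let Lin : (ℕ → κ) → C(Fin n → Ball κ, ℝ) := fun τ =>
        ∑ B' ∈ (V \ R l).powerset with #B' ≤ b0, co (V \ R l) B' • gF N side B' τ
      have hLin : ∀ τ y, |T (gF N side (V \ R l) τ) y - T (Lin τ) y| ≤ c / 32 := by
        intro τ y
        have h1 := hTb (gF N side (V \ R l) τ - Lin τ) δ hδ0 (fun z => by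
          have h2 := hco (V \ R l) hDV (fun v => cut N ((z (side v)).1 (τ v)))
            (fun v _ => ⟨cut_nonneg _ _, cut_le_one _ _⟩)
          rw [ContinuousMap.sub_apply, ContinuousMap.sum_apply]
          simp only [ContinuousMap.smul_apply, smul_eq_mul, gF_apply]
          exact h2) y
        rw [map_sub, ContinuousMap.sub_apply] at h1
        exact h1.trans hTδ
      have hTLin : ∀ τ y, T (Lin τ) y = ∑ B' ∈ (V \ R l).powerset with #B' ≤ b0,
          co (V \ R l) B' * T (gF N side B' τ) y := by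
        intro τ y
        simp only [Lin, map_sum, map_smul, ContinuousMap.sum_apply, ContinuousMap.smul_apply,
          smul_eq_mul]
      have hdiff : ∀ U ⊆ D1, |T (gF N side (V \ R l) (sec p0 p1 U)) x' -
          T (gF N side (V \ R l) (sec p0 p1 ∅)) x| ≤ c / 8 := by
        intro U hU
        have h1 := hLin (sec p0 p1 U) x'
        have h2 := hLin (sec p0 p1 ∅) x
        have h3 : |T (Lin (sec p0 p1 U)) x' - T (Lin (sec p0 p1 ∅)) x| ≤ c / 16 := by
          rw [hTLin, hTLin, ← Finset.sum_sub_distrib]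
          refine (Finset.abs_sum_le_sum_abs _ _).trans ?_
          calc ∑ B' ∈ (V \ R l).powerset with #B' ≤ b0,
                |co (V \ R l) B' * T (gF N side B' (sec p0 p1 U)) x' -
                  co (V \ R l) B' * T (gF N side B' (sec p0 p1 ∅)) x|
              ≤ ∑ B' ∈ (V \ R l).powerset with #B' ≤ b0, |co (V \ R l) B'| * (4 * ε) := by
                refine Finset.sum_le_sum fun B' hB' => ?_
                rw [Finset.mem_filter, Finset.mem_powerset] at hB'
                rw [← mul_sub, abs_mul]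
                refine mul_le_mul_of_nonneg_left ?_ (abs_nonneg _)
                refine htr B' (hB'.1.trans hDV) U (hU.trans hD1r) x x' fun k a ha hI => ?_
                have h4 := hBI B' (hB'.1.trans hDV) a ha hI
                refine hx' k U hU a ha ((Finset.card_le_card h4).trans hB'.2) ?_
                rw [Finset.disjoint_left]
                intro v hv hvR
                exact (Finset.mem_sdiff.mp (hB'.1 (h4 hv))).2 hvR
            _ = (∑ B' ∈ (V \ R l).powerset with #B' ≤ b0, |co (V \ R l) B'|) * (4 * ε) := by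
                rw [Finset.sum_mul]
            _ ≤ Sbig * (4 * ε) := by
                refine mul_le_mul_of_nonneg_right ?_ (by positivity)
                exact Finset.single_le_sum (s := V.powerset)
                  (f := fun D => ∑ B' ∈ D.powerset with #B' ≤ b0, |co D B'|)
                  (fun D _ => Finset.sum_nonneg fun B _ => abs_nonneg _)
                  (Finset.mem_powerset.mpr hDV)
            _ ≤ c / 16 := hSε
        rw [abs_le] at h1 h2 h3 ⊢
        constructor <;> linarith [h1.1, h1.2, h2.1, h2.2, h3.1, h3.2]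
      -- signed sum
      let s : Finset ℕ → ℝ := fun U =>
        if 0 ≤ T (gF N side (V \ R l) (sec p0 p1 U)) x' then 1 else -1
      have hs : ∀ U, |s U| ≤ 1 := by
        intro U
        simp only [s]
        split_ifs <;> simp
      have hsT : ∀ U, s U * T (gF N side (V \ R l) (sec p0 p1 U)) x' =
          |T (gF N side (V \ R l) (sec p0 p1 U)) x'| := by
        intro U
        simp only [s]
        split_ifs with h
        · rw [one_mul, abs_of_nonneg h]
        · rw [abs_of_neg (not_le.mp h), neg_one_mul]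
      have hAD : A j ⊆ V \ R l := by
        intro v hv
        refine Finset.mem_sdiff.mpr ⟨Finset.mem_range.mpr (hAV j v hv).1, fun hvR => ?_⟩
        exact Finset.disjoint_left.mp (hRA l) hvR hv
      have hsum := gF_signed (N := N) (r := n * N) side (V \ R l) D1 p0 p1 hdist j (A j) (hAV j)
        hAD (hAc j) hD1A s hs
      have h5 : ∑ U ∈ D1.powerset, |T (gF N side (V \ R l) (sec p0 p1 U)) x'| ≤ ‖T‖ := by
        have h6 : ∑ U ∈ D1.powerset, |T (gF N side (V \ R l) (sec p0 p1 U)) x'| =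
            T (∑ U ∈ D1.powerset, s U • gF N side (V \ R l) (sec p0 p1 U)) x' := by
          simp only [map_sum, map_smul, ContinuousMap.sum_apply, ContinuousMap.smul_apply,
            smul_eq_mul, hsT]
        rw [h6]
        calc T (∑ U ∈ D1.powerset, s U • gF N side (V \ R l) (sec p0 p1 U)) x'
            ≤ ‖T (∑ U ∈ D1.powerset, s U • gF N side (V \ R l) (sec p0 p1 U)) x'‖ :=
              Real.le_norm_self _
          _ ≤ ‖T (∑ U ∈ D1.powerset, s U • gF N side (V \ R l) (sec p0 p1 U))‖ :=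
              (T _).norm_coe_le_norm x'
          _ ≤ ‖T‖ * ‖∑ U ∈ D1.powerset, s U • gF N side (V \ R l) (sec p0 p1 U)‖ :=
              T.le_opNorm _
          _ ≤ ‖T‖ * 1 := mul_le_mul_of_nonneg_left hsum (norm_nonneg T)
          _ = ‖T‖ := mul_one _
      have h7 : (2 ^ h0 : ℝ) * (|T (gF N side (V \ R l) (sec p0 p1 ∅)) x| - c / 8) ≤
          ∑ U ∈ D1.powerset, |T (gF N side (V \ R l) (sec p0 p1 U)) x'| := by
        have h8 := Finset.card_nsmul_le_sum D1.powerset
          (fun U => |T (gF N side (V \ R l) (sec p0 p1 U)) x'|)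
          (|T (gF N side (V \ R l) (sec p0 p1 ∅)) x| - c / 8) (fun U hU => by
            have h9 := hdiff U (Finset.mem_powerset.mp hU)
            have h10 := abs_sub_abs_le_abs_sub (T (gF N side (V \ R l) (sec p0 p1 ∅)) x)
              (T (gF N side (V \ R l) (sec p0 p1 U)) x')
            rw [abs_sub_comm] at h10
            linarith)
        rw [Finset.card_powerset, hD1c, nsmul_eq_mul] at h8
        push_cast at h8
        exact h8
      have h11 : (2 ^ h0 : ℝ) * (|T (gF N side (V \ R l) (sec p0 p1 ∅)) x| - c / 8) ≤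
          (2 ^ h0 : ℝ) * (c / 8) := by
        refine (h7.trans (h5.trans hMh)).trans (le_of_eq ?_)
        ring
      have h12 := le_of_mul_le_mul_left h11 (by positivity)
      linarith
    -- average
    have hq' : (0 : ℝ) < q := by exact_mod_cast hq
    have h1 := hTb (gF N side V (sec p0 p1 ∅) -
      (1 / q : ℝ) • ∑ l, gF N side (V \ R l) (sec p0 p1 ∅)) (1 / q) (by positivity) (fun z => by
        have h2 := avg_bound V q hq R hRd (fun v => cut N ((z (side v)).1 (sec p0 p1 ∅ v)))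
          (fun v _ => ⟨cut_nonneg _ _, cut_le_one _ _⟩)
        rw [ContinuousMap.sub_apply, ContinuousMap.smul_apply, ContinuousMap.sum_apply]
        simp only [smul_eq_mul, gF_apply]
        exact h2) x
    rw [map_sub, map_smul, map_sum, ContinuousMap.sub_apply, ContinuousMap.smul_apply,
      ContinuousMap.sum_apply, smul_eq_mul] at h1
    have h2 : ‖T‖ * (1 / q) ≤ c / 8 := by
      rw [mul_one_div, div_le_iff₀ hq']
      exact hMq
    have h3 : |(1 / q : ℝ) * ∑ l, T (gF N side (V \ R l) (sec p0 p1 ∅)) x| ≤ c / 4 := by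
      rw [abs_mul, abs_of_pos (by positivity : (0 : ℝ) < 1 / q)]
      have h4 : |∑ l, T (gF N side (V \ R l) (sec p0 p1 ∅)) x| ≤ q * (c / 4) := by
        refine (Finset.abs_sum_le_sum_abs _ _).trans ?_
        have h5 := Finset.sum_le_card_nsmul (Finset.univ : Finset (Fin q))
          (fun l => |T (gF N side (V \ R l) (sec p0 p1 ∅)) x|) (c / 4) (fun l _ => hl l)
        rw [Finset.card_univ, Fintype.card_fin, nsmul_eq_mul] at h5
        exact h5
      calc (1 / q : ℝ) * |∑ l, T (gF N side (V \ R l) (sec p0 p1 ∅)) x|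
          ≤ (1 / q : ℝ) * (q * (c / 4)) := mul_le_mul_of_nonneg_left h4 (by positivity)
        _ = c / 4 := by field_simp
    have h6 := h1.trans h2
    rw [abs_le] at h6 h3 ⊢
    constructor <;> linarith [h6.1, h6.2, h3.1, h3.2]
  -- norm one
  obtain ⟨y, hy⟩ := exists_gF_eq_one hNpos side V (sec p0 p1 ∅) (by
    intro v hv w hw hvw
    simp only [sec, Finset.notMem_empty, if_false] at hvw
    exact (hdist v (Finset.mem_range.mp hv) w (Finset.mem_range.mp hw)).2.1 hvw) (fun j => by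
      rw [← hAc j]
      refine Finset.card_le_card fun v hv => ?_
      rw [Finset.mem_filter] at hv
      exact hVA j v hv.1 hv.2)
  have h1 : 1 ≤ ‖gF N side V (sec p0 p1 ∅)‖ := by
    have := (gF N side V (sec p0 p1 ∅)).norm_coe_le_norm y
    rwa [hy, norm_one] at this
  have h2 : ‖T (gF N side V (sec p0 p1 ∅))‖ ≤ 3 * c / 8 :=
    (ContinuousMap.norm_le _ (by positivity)).mpr fun x => by
      rw [Real.norm_eq_abs]; exact hmain x
  have h3 := hT (gF N side V (sec p0 p1 ∅))
  nlinarith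

end Pool.Agent.TH50.BK
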